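import Pool.Agent.Helper58.LW.MatDiag

set_option autoImplicit false

namespace Pool.Agent.Helper58.LW

open RCLike Matrix

variable {𝕜 : Type*} [RCLike 𝕜] {n : ℕ}

/-- the real-linear isometry to `ℂ` -/
noncomputable def toC (a : 𝕜) : ℂ := ⟨re a, im a⟩

lemma toC_norm_sq (a : 𝕜) : ‖toC a‖ ^ 2 = ‖a‖ ^ 2 := by
  rw [← Complex.normSq_eq_norm_sq, Complex.normSq_apply, RCLike.norm_sq_eq_def]
  rfl

lemma toC_add (a b : 𝕜) : toC (a + b) = toC a + toC b := by
  apply Complex.ext <;> simp [toC]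

lemma toC_real_mul (r : ℝ) (a : 𝕜) : toC ((r : 𝕜) * a) = r • toC a := by
  apply Complex.ext <;> simp [toC]

lemma toC_zero : toC (0 : 𝕜) = 0 := by
  apply Complex.ext <;> simp [toC]

lemma toC_sum {ι : Type*} (s : Finset ι) (f : ι → 𝕜) : toC (∑ i ∈ s, f i) = ∑ i ∈ s, toC (f i) := by
  classical
  induction s using Finset.induction_on with
  | empty => simp [toC_zero]
  | insert a s ha ih => rw [Finset.sum_insert ha, Finset.sum_insert ha, toC_add, ih]

lemma toC_inner (a b : 𝕜) : inner ℝ (toC a) (toC b) = re ((starRingEnd 𝕜) a * b) := by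
  rw [Complex.inner]
  simp [toC, Complex.mul_re]
  ring

theorem diag_main (X : Matrix (Fin n) (Fin n) 𝕜) (lam : 𝕜) (p q : Fin n → ℝ)
    (hX : fro X = 1)
    (hQ : (X - lam • (1 : Matrix (Fin n) (Fin n) 𝕜))ᴴ * (X - lam • (1 : Matrix (Fin n) (Fin n) 𝕜)) +
      (X - lam • (1 : Matrix (Fin n) (Fin n) 𝕜)) * (X - lam • (1 : Matrix (Fin n) (Fin n) 𝕜))ᴴ =
      diagonal (fun i => (q i : 𝕜)))
    (hp0 : ∀ i, 0 ≤ p i) (hp1 : ∀ i, p i ≤ 1) (hp2 : ∑ i, p i = 2)
    (hpx : ∑ i, (p i : 𝕜) * (X - lam • (1 : Matrix (Fin n) (Fin n) 𝕜)) i i = 0)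
    (hmax : ∀ i j, i ≠ j → q i + q j ≤ ∑ k, p k * q k)
    {α : Type*} [Fintype α] [DecidableEq α] (C : α → Matrix (Fin n) (Fin n) 𝕜) (N : ℝ)
    (horth : ∀ a b, a ≠ b → trace (C a * (C b)ᴴ) = 0) (hN : ∀ a, fro (C a) ≤ N) (hN0 : 0 ≤ N) :
    ∑ a, fro (Xᴴ * C a - C a * Xᴴ) ≤ 2 * N + ∑ a, fro (C a) := by
  classical
  set Z := X - lam • (1 : Matrix (Fin n) (Fin n) 𝕜) with hZ
  -- diagonal entries of hQ
  have hqd : ∀ i, q i = ∑ k, ‖Z k i‖ ^ 2 + ∑ k, ‖Z i k‖ ^ 2 := by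
    intro i
    have h1 := congrFun (congrFun hQ i) i
    rw [Matrix.add_apply, diagonal_apply_eq, mul_apply, mul_apply] at h1
    have h2 : ((∑ k, ‖Z k i‖ ^ 2 + ∑ k, ‖Z i k‖ ^ 2 : ℝ) : 𝕜) = (q i : 𝕜) := by
      rw [← h1]
      push_cast
      congr 1
      · refine Finset.sum_congr rfl fun k _ => ?_
        rw [conjTranspose_apply, ← RCLike.conj_mul]; rfl
      · refine Finset.sum_congr rfl fun k _ => ?_
        rw [conjTranspose_apply, ← RCLike.mul_conj]; rfl
    exact (RCLike.ofReal_inj.1 h2).symm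
  set off : Fin n → Fin n → ℝ := fun i j => if i = j then 0 else ‖Z i j‖ ^ 2 with hoff
  have hoff0 : ∀ i j, 0 ≤ off i j := fun i j => by
    simp only [hoff]; split_ifs <;> positivity
  have hoffd : ∀ i, off i i = 0 := fun i => by simp [hoff]
  have hcol : ∀ i, ∑ k, ‖Z k i‖ ^ 2 = ‖Z i i‖ ^ 2 + ∑ k, off k i := by
    intro i
    rw [← Finset.add_sum_erase Finset.univ (fun k => ‖Z k i‖ ^ 2) (Finset.mem_univ i),
      ← Finset.add_sum_erase Finset.univ (fun k => off k i) (Finset.mem_univ i), hoffd, zero_add]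
    congr 1
    refine Finset.sum_congr rfl fun k hk => ?_
    simp only [hoff, if_neg (Finset.ne_of_mem_erase hk)]
  have hrow : ∀ i, ∑ k, ‖Z i k‖ ^ 2 = ‖Z i i‖ ^ 2 + ∑ k, off i k := by
    intro i
    rw [← Finset.add_sum_erase Finset.univ (fun k => ‖Z i k‖ ^ 2) (Finset.mem_univ i),
      ← Finset.add_sum_erase Finset.univ (fun k => off i k) (Finset.mem_univ i), hoffd, zero_add]
    congr 1
    refine Finset.sum_congr rfl fun k hk => ?_
    simp only [hoff, if_neg (Finset.ne_of_mem_erase hk).symm]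
  set d : Fin n → ℝ := fun i => (∑ k, off k i + ∑ k, off i k) / 2 with hd
  have hd0 : ∀ i, 0 ≤ d i := fun i => by
    simp only [hd]
    have h1 : 0 ≤ ∑ k, off k i := Finset.sum_nonneg fun k _ => hoff0 k i
    have h2 : 0 ≤ ∑ k, off i k := Finset.sum_nonneg fun k _ => hoff0 i k
    linarith
  have hsumd : ∑ j, d j = ∑ j, ∑ k, off j k := by
    simp only [hd]
    rw [← Finset.sum_div, Finset.sum_add_distrib, Finset.sum_comm]
    ring
  have hbal : ∀ i, 2 * d i ≤ ∑ j, d j := by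
    intro i
    rw [hsumd]
    have e1 : 2 * d i = ∑ j, (off j i + (if j = i then ∑ k, off i k else 0)) := by
      rw [Finset.sum_add_distrib]
      simp only [hd, Finset.sum_ite_eq', Finset.mem_univ, if_true]
      ring
    rw [e1]
    refine Finset.sum_le_sum fun j _ => ?_
    split_ifs with h
    · rw [h, hoffd, zero_add]
    · rw [add_zero]
      exact Finset.single_le_sum (f := fun k => off j k) (fun k _ => hoff0 j k) (Finset.mem_univ i)
  have hq : ∀ i, q i = 2 * ‖toC (Z i i)‖ ^ 2 + 2 * d i := by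
    intro i
    rw [hqd i, hcol i, hrow i, toC_norm_sq]
    simp only [hd]; ring
  have hZX : ∀ i j, i ≠ j → Z i j = X i j := by
    intro i j hij
    rw [hZ, Matrix.sub_apply, Matrix.smul_apply, one_apply_ne hij, smul_zero, sub_zero]
  have hZXd : ∀ i, Z i i + lam = X i i := by
    intro i
    rw [hZ, Matrix.sub_apply, Matrix.smul_apply, one_apply_eq, smul_eq_mul, mul_one, sub_add_cancel]
  have hw : ∑ i, (‖toC (Z i i) + toC lam‖ ^ 2 + d i) = 1 := by
    rw [Finset.sum_add_distrib, hsumd, ← Finset.sum_add_distrib, ← hX, fro]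
    refine Finset.sum_congr rfl fun i _ => ?_
    rw [← toC_add, toC_norm_sq, hZXd,
      ← Finset.add_sum_erase Finset.univ (fun k => off i k) (Finset.mem_univ i), hoffd, zero_add,
      ← Finset.add_sum_erase Finset.univ (fun k => ‖X i k‖ ^ 2) (Finset.mem_univ i)]
    congr 1
    refine Finset.sum_congr rfl fun k hk => ?_
    have hk' := (Finset.ne_of_mem_erase hk).symm
    simp only [hoff, if_neg hk', hZX i k hk']
  have hpx' : ∑ i, p i • toC (Z i i) = 0 := by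
    have h1 : toC (∑ i, (p i : 𝕜) * Z i i) = ∑ i, p i • toC (Z i i) := by
      rw [toC_sum]
      exact Finset.sum_congr rfl fun i _ => toC_real_mul _ _
    rw [← h1, hpx, toC_zero]
  obtain ⟨γ, hγs, hγ0, hγ1, hsγ, htr⟩ := scalar_main (fun i => toC (Z i i)) (toC lam) d p q
    hd0 hbal hq hw hp0 hp1 hp2 hpx' hmax
  have hmain := certificate (EuclideanSpace.basisFun (Fin n × Fin n) 𝕜) (comL X) (comL Xᴴ)
    (comL_adj X) (fun k => q k.1 + q k.2) (fun k => γ k.1 k.2) (fun k => hγ0 _ _)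
    (fun k => hγ1 _ _) (fun k => hsγ _ _) ?_ ?_ (fun a => mvec (C a)) N ?_ ?_ hN0
  · simp only [comL_mvec, norm_mvec_sq] at hmain
    exact hmain
  · intro W
    obtain ⟨A, rfl⟩ := mvec.surjective W
    rw [comL_mvec, norm_mvec_sq, com_shift X A lam, ← hZ]
    have h1 := fro_comm_add Z A
    have h2 := fro_nonneg (Zᴴ * A + A * Zᴴ)
    rw [hQ, re_trace_diag_left, re_trace_diag_right] at h1
    rw [Fintype.sum_prod_type]
    have h3 : ∑ i, ∑ j, (q i + q j) * ‖inner 𝕜 ((EuclideanSpace.basisFun (Fin n × Fin n) 𝕜) (i, j))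
        (mvec A)‖ ^ 2 = ∑ i, ∑ j, q i * ‖A i j‖ ^ 2 + ∑ i, ∑ j, q j * ‖A i j‖ ^ 2 := by
      rw [← Finset.sum_add_distrib]
      refine Finset.sum_congr rfl fun i _ => ?_
      rw [← Finset.sum_add_distrib]
      refine Finset.sum_congr rfl fun j _ => ?_
      rw [EuclideanSpace.basisFun_inner, mvec_apply]
      ring
    rw [h3]
    linarith
  · rw [Fintype.sum_prod_type]
    have h1 : ∀ i j, ‖comL X ((EuclideanSpace.basisFun (Fin n × Fin n) 𝕜) (i, j))‖ ^ 2 =
        ∑ k, ‖Z k i‖ ^ 2 + ∑ k, ‖Z j k‖ ^ 2 - 2 * inner ℝ (toC (Z i i)) (toC (Z j j)) := by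
      intro i j
      have e : (EuclideanSpace.basisFun (Fin n × Fin n) 𝕜) (i, j) =
          mvec (single i j (1 : 𝕜)) := by
        ext ij
        rw [mvec_apply, EuclideanSpace.basisFun_apply]
        by_cases h : ij = (i, j)
        · subst h; simp
        · have h' : ¬ (i = ij.1 ∧ j = ij.2) := by
            rintro ⟨h1, h2⟩; exact h (Prod.ext h1.symm h2.symm)
          rw [single_apply_of_ne _ _ _ _ _ h']
          simp [h]
      rw [e, comL_mvec, norm_mvec_sq, com_shift X _ lam, ← hZ, fro_comm_single, toC_inner]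
    have h2 : ∑ i, ∑ j, γ i j * ‖comL X ((EuclideanSpace.basisFun (Fin n × Fin n) 𝕜) (i, j))‖ ^ 2 =
        ∑ i, ∑ j, γ i j * ((q i + q j) / 2 - 2 * inner ℝ (toC (Z i i)) (toC (Z j j))) := by
      have h3 : ∑ i, ∑ j, γ i j * (∑ k, ‖Z k i‖ ^ 2 + ∑ k, ‖Z j k‖ ^ 2) =
          ∑ i, ∑ j, γ i j * ((q i + q j) / 2) := by
        have h4 : ∑ i, ∑ j, γ i j * (∑ k, ‖Z k i‖ ^ 2 + ∑ k, ‖Z j k‖ ^ 2) =
            ∑ i, ∑ j, γ i j * (∑ k, ‖Z k j‖ ^ 2 + ∑ k, ‖Z i k‖ ^ 2) := by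
          rw [Finset.sum_comm]
          refine Finset.sum_congr rfl fun i _ => Finset.sum_congr rfl fun j _ => ?_
          rw [hγs]
        have h5 : ∑ i, ∑ j, γ i j * (∑ k, ‖Z k i‖ ^ 2 + ∑ k, ‖Z j k‖ ^ 2) +
            ∑ i, ∑ j, γ i j * (∑ k, ‖Z k j‖ ^ 2 + ∑ k, ‖Z i k‖ ^ 2) =
            2 * ∑ i, ∑ j, γ i j * ((q i + q j) / 2) := by
          rw [← Finset.sum_add_distrib, Finset.mul_sum]
          refine Finset.sum_congr rfl fun i _ => ?_
          rw [← Finset.sum_add_distrib, Finset.mul_sum]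
          refine Finset.sum_congr rfl fun j _ => ?_
          rw [hqd i, hqd j]; ring
        linarith
      simp_rw [h1, mul_sub, Finset.sum_sub_distrib]
      rw [h3]
    rw [h2]
    exact htr
  · intro a b hab
    rw [inner_mvec, Matrix.trace_mul_comm]
    exact horth b a (Ne.symm hab)
  · intro a
    rw [norm_mvec_sq]
    exact hN a

end Pool.Agent.Helper58.LW
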