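import Pool.Agent.Helper58.LW.Rho
import Pool.Agent.Helper58.LW.DiagMain

set_option autoImplicit false

namespace Pool.Agent.Helper58.LW

open RCLike Matrix

variable {𝕜 : Type*} [RCLike 𝕜] {n : ℕ}

lemma qf_rot (ρ U : Matrix (Fin n) (Fin n) 𝕜) (v : Fin n → 𝕜) :
    qf (Uᴴ * ρ * U) v = qf ρ (U *ᵥ v) := by
  unfold qf
  rw [star_mulVec, ← dotProduct_mulVec, mulVec_mulVec, mulVec_mulVec, Matrix.mul_assoc]

lemma feas_rot {ρ : Matrix (Fin n) (Fin n) 𝕜} (h : Feas ρ) (U : Matrix (Fin n) (Fin n) 𝕜)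
    (hU : Uᴴ * U = 1) (hU' : U * Uᴴ = 1) : Feas (Uᴴ * ρ * U) := by
  refine ⟨?_, fun v => ?_, ?_⟩
  · rw [conjTranspose_mul, conjTranspose_mul, conjTranspose_conjTranspose, h.1, Matrix.mul_assoc]
  · rw [qf_rot]
    have h1 := h.2.1 (U *ᵥ v)
    refine ⟨h1.1, h1.2.trans (le_of_eq ?_)⟩
    have h2 := qf_rot (1 : Matrix (Fin n) (Fin n) 𝕜) U v
    rw [Matrix.mul_one, hU] at h2
    simp only [qf, one_mulVec] at h2
    exact h2.symm
  · rw [Matrix.trace_mul_comm, ← Matrix.mul_assoc, hU', Matrix.one_mul, h.2.2]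

lemma feas_diagonal (r : Fin n → ℝ) (h0 : ∀ i, 0 ≤ r i) (h1 : ∀ i, r i ≤ 1)
    (h2 : ∑ i, r i = 2) : Feas (diagonal (fun i => (r i : 𝕜))) := by
  refine ⟨?_, fun v => ?_, ?_⟩
  · rw [diagonal_conjTranspose]
    congr 1
    ext i
    exact RCLike.conj_ofReal _
  · have h3 : qf (diagonal (fun i => (r i : 𝕜))) v = ∑ i, r i * ‖v i‖ ^ 2 := by
      unfold qf
      simp only [dotProduct, mulVec_diagonal, map_sum, Pi.star_apply]
      refine Finset.sum_congr rfl fun i _ => ?_
      have e : star (v i) * ((r i : 𝕜) * v i) = ((r i * ‖v i‖ ^ 2 : ℝ) : 𝕜) := by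
        have := RCLike.conj_mul (v i)
        push_cast
        calc star (v i) * ((r i : 𝕜) * v i) = (r i : 𝕜) * ((starRingEnd 𝕜) (v i) * v i) := by
              change star (v i) * ((r i : 𝕜) * v i) = (r i : 𝕜) * (star (v i) * v i)
              ring
          _ = _ := by rw [this]
      rw [e, RCLike.ofReal_re]
    rw [h3, re_star_dot]
    constructor
    · exact Finset.sum_nonneg fun i _ => mul_nonneg (h0 i) (by positivity)
    · refine Finset.sum_le_sum fun i _ => ?_
      calc r i * ‖v i‖ ^ 2 ≤ 1 * ‖v i‖ ^ 2 := mul_le_mul_of_nonneg_right (h1 i) (by positivity)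
        _ = _ := one_mul _
  · rw [trace_diagonal]
    have : ((∑ i, r i : ℝ) : 𝕜) = ((2 : ℝ) : 𝕜) := by rw [h2]
    push_cast at this
    exact this

lemma trace_rot (A U : Matrix (Fin n) (Fin n) 𝕜) (hU' : U * Uᴴ = 1) :
    trace (Uᴴ * A * U) = trace A := by
  rw [Matrix.trace_mul_comm, ← Matrix.mul_assoc, hU', Matrix.one_mul]

lemma rot_mul (A B U : Matrix (Fin n) (Fin n) 𝕜) (hU' : U * Uᴴ = 1) :
    Uᴴ * A * U * (Uᴴ * B * U) = Uᴴ * (A * B) * U := by
  calc Uᴴ * A * U * (Uᴴ * B * U) = Uᴴ * A * (U * Uᴴ) * B * U := by simp only [Matrix.mul_assoc]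
    _ = _ := by rw [hU']; simp only [Matrix.mul_assoc, Matrix.mul_one]

lemma rot_conj (A U : Matrix (Fin n) (Fin n) 𝕜) : (Uᴴ * A * U)ᴴ = Uᴴ * Aᴴ * U := by
  rw [conjTranspose_mul, conjTranspose_mul, conjTranspose_conjTranspose, Matrix.mul_assoc]

lemma rot_add (A B U : Matrix (Fin n) (Fin n) 𝕜) :
    Uᴴ * (A + B) * U = Uᴴ * A * U + Uᴴ * B * U := by
  rw [Matrix.mul_add, Matrix.add_mul]

lemma fro_rot (A U : Matrix (Fin n) (Fin n) 𝕜) (hU' : U * Uᴴ = 1) :
    fro (Uᴴ * A * U) = fro A := by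
  rw [fro_eq_re, fro_eq_re, rot_conj, rot_mul _ _ _ hU', trace_rot _ _ hU']

theorem main_unit (hn : 2 ≤ n) (X : Matrix (Fin n) (Fin n) 𝕜) (hX : fro X = 1)
    {α : Type*} [Fintype α] [DecidableEq α] (C : α → Matrix (Fin n) (Fin n) 𝕜) (N : ℝ)
    (horth : ∀ a b, a ≠ b → trace (C a * (C b)ᴴ) = 0) (hN : ∀ a, fro (C a) ≤ N) (hN0 : 0 ≤ N) :
    ∑ a, fro (Xᴴ * C a - C a * Xᴴ) ≤ 2 * N + ∑ a, fro (C a) := by
  classical
  obtain ⟨ρ, lam, hρ, hρZ, hopt⟩ := exists_opt hn X
  set Z := X - lam • (1 : Matrix (Fin n) (Fin n) 𝕜) with hZ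
  set Q := Zᴴ * Z + Z * Zᴴ with hQ
  have hQh : Qᴴ = Q := by
    rw [hQ, conjTranspose_add, conjTranspose_mul, conjTranspose_mul, conjTranspose_conjTranspose]
  have hA : (Q + ρ).IsHermitian := by
    rw [Matrix.IsHermitian, conjTranspose_add, hQh, hρ.1]
  obtain ⟨U, hUdef⟩ : ∃ U : Matrix (Fin n) (Fin n) 𝕜, U = (hA.eigenvectorUnitary :
    Matrix (Fin n) (Fin n) 𝕜) := ⟨_, rfl⟩
  have hU : Uᴴ * U = 1 := by
    rw [hUdef]; exact Unitary.coe_star_mul_self _
  have hU' : U * Uᴴ = 1 := by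
    rw [hUdef]; exact Unitary.coe_mul_star_self _
  have hdiag : Uᴴ * (Q + ρ) * U = diagonal (fun i => (hA.eigenvalues i : 𝕜)) := by
    have := hA.conjStarAlgAut_star_eigenvectorUnitary
    rw [Unitary.conjStarAlgAut_star_apply] at this
    rw [hUdef]
    exact this
  set R := Uᴴ * ρ * U with hR
  set Q' := Uᴴ * Q * U with hQ'
  have hRQ : Q' + R = diagonal (fun i => (hA.eigenvalues i : 𝕜)) := by
    rw [← hdiag]; exact (rot_add _ _ _).symm
  have hRf : Feas R := feas_rot hρ U hU hU'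
  have hopt' : ∀ R', Feas R' → re (trace (R' * Q')) ≤ re (trace (R * Q')) := by
    intro R' hR'
    have h1 : Feas (Uᴴᴴ * R' * Uᴴ) := feas_rot hR' Uᴴ
      (by rw [conjTranspose_conjTranspose]; exact hU') (by rw [conjTranspose_conjTranspose]; exact hU)
    rw [conjTranspose_conjTranspose] at h1
    have h2 := hopt _ h1
    have e1 : trace (R' * Q') = trace (U * R' * Uᴴ * Q) := by
      rw [hQ']
      calc trace (R' * (Uᴴ * Q * U)) = trace ((R' * Uᴴ * Q) * U) := by
            simp only [Matrix.mul_assoc]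
        _ = trace (U * (R' * Uᴴ * Q)) := Matrix.trace_mul_comm _ _
        _ = _ := by simp only [Matrix.mul_assoc]
    have e2 : trace (R * Q') = trace (ρ * Q) := by
      rw [hR, hQ', rot_mul _ _ _ hU', trace_rot _ _ hU']
    rw [e1, e2]
    exact h2
  -- diagonal part
  set p : Fin n → ℝ := fun i => re (R i i) with hp
  have hRreal : ∀ i, R i i = (p i : 𝕜) := by
    intro i
    have h2 : (starRingEnd 𝕜) (R i i) = R i i := by
      have := congrFun (congrFun hRf.1 i) i
      rw [conjTranspose_apply] at this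
      exact this
    exact (RCLike.conj_eq_iff_re.1 h2).symm
  have hp0 : ∀ i, 0 ≤ p i := fun i => (feas_diag hRf i).1
  have hp1 : ∀ i, p i ≤ 1 := fun i => (feas_diag hRf i).2
  have hp2 : ∑ i, p i = 2 := by
    have h1 := hRf.2.2
    rw [trace] at h1
    simp only [diag_apply, hRreal] at h1
    have h2 : ((∑ i, p i : ℝ) : 𝕜) = ((2 : ℝ) : 𝕜) := by
      push_cast
      exact h1
    exact RCLike.ofReal_inj.1 h2
  have hoffd : ∀ i j, i ≠ j → R i j = 0 := by
    have h1 := hopt' _ (feas_diagonal (𝕜 := 𝕜) p hp0 hp1 hp2)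
    have hQ'e : Q' = diagonal (fun i => (hA.eigenvalues i : 𝕜)) - R := by
      rw [← hRQ]; abel
    rw [hQ'e, mul_sub, mul_sub, trace_sub, trace_sub, map_sub, map_sub] at h1
    have e1 : trace (diagonal (fun i => (p i : 𝕜)) * diagonal (fun i => (hA.eigenvalues i : 𝕜))) =
        trace (R * diagonal (fun i => (hA.eigenvalues i : 𝕜))) := by
      simp only [trace, diag_apply, mul_diagonal, diagonal_apply_eq, hRreal]
    rw [e1] at h1
    have e2 : re (trace (diagonal (fun i => (p i : 𝕜)) * R)) = ∑ i, p i ^ 2 := by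
      simp only [trace, diag_apply, diagonal_mul, hRreal, map_sum]
      refine Finset.sum_congr rfl fun i _ => ?_
      rw [← RCLike.ofReal_mul, RCLike.ofReal_re, sq]
    have e3 : re (trace (R * R)) = ∑ i, ∑ j, ‖R i j‖ ^ 2 := by
      have : trace (R * R) = trace (Rᴴ * R) := by rw [hRf.1]
      rw [this, ← fro_eq_re]; rfl
    rw [e2, e3] at h1
    have h2 : ∑ i, ∑ j, ‖R i j‖ ^ 2 ≤ ∑ i, p i ^ 2 := by linarith
    intro i j hij
    by_contra hne
    have h3 : ∑ i, p i ^ 2 < ∑ i, ∑ j, ‖R i j‖ ^ 2 := by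
      have hle : ∀ k, p k ^ 2 ≤ ∑ j, ‖R k j‖ ^ 2 := by
        intro k
        have : p k ^ 2 = ‖R k k‖ ^ 2 := by
          rw [hRreal k, RCLike.norm_ofReal, sq_abs]
        rw [this]
        exact Finset.single_le_sum (f := fun j => ‖R k j‖ ^ 2) (fun j _ => by positivity)
          (Finset.mem_univ k)
      refine Finset.sum_lt_sum (fun k _ => hle k) ⟨i, Finset.mem_univ i, ?_⟩
      have : p i ^ 2 = ‖R i i‖ ^ 2 := by
        rw [hRreal i, RCLike.norm_ofReal, sq_abs]
      rw [this]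
      refine Finset.single_lt_sum (f := fun j => ‖R i j‖ ^ 2) (Ne.symm hij) (Finset.mem_univ i)
        (Finset.mem_univ j) ?_ (fun k _ _ => by positivity)
      have : 0 < ‖R i j‖ := norm_pos_iff.2 hne
      positivity
    linarith
  have hRd : R = diagonal (fun i => (p i : 𝕜)) := by
    ext i j
    by_cases hij : i = j
    · subst hij; rw [diagonal_apply_eq, hRreal]
    · rw [diagonal_apply_ne _ hij, hoffd i j hij]
  set q : Fin n → ℝ := fun i => hA.eigenvalues i - p i with hq
  have hQ'd : Q' = diagonal (fun i => (q i : 𝕜)) := by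
    have : Q' = diagonal (fun i => (hA.eigenvalues i : 𝕜)) - R := by
      rw [← hRQ]; abel
    rw [this, hRd]
    ext i j
    rw [Matrix.sub_apply]
    by_cases hij : i = j
    · subst hij
      simp only [diagonal_apply_eq, hq]
      push_cast
      rfl
    · rw [diagonal_apply_ne _ hij, diagonal_apply_ne _ hij, diagonal_apply_ne _ hij, sub_zero]
  -- rotated matrix
  have hZ' : Uᴴ * X * U - lam • (1 : Matrix (Fin n) (Fin n) 𝕜) = Uᴴ * Z * U := by
    rw [hZ, mul_sub, sub_mul, mul_smul_comm, smul_mul_assoc, Matrix.mul_one, hU]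
  have hpxx : ∑ i, (p i : 𝕜) * (Uᴴ * Z * U) i i = 0 := by
    have h1 : trace (R * (Uᴴ * Z * U)) = 0 := by
      rw [hR, rot_mul _ _ _ hU', trace_rot _ _ hU', hρZ]
    rw [hRd] at h1
    simp only [trace, diag_apply, diagonal_mul] at h1
    exact h1
  have hmaxx : ∀ i j, i ≠ j → q i + q j ≤ ∑ k, p k * q k := by
    intro i j hij
    have hf : Feas (diagonal (fun k => (((if k = i then 1 else 0) + (if k = j then 1 else 0) : ℝ) :
        𝕜))) := by
      refine feas_diagonal _ (fun k => ?_) (fun k => ?_) ?_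
      · split_ifs <;> norm_num
      · by_cases h1 : k = i
        · rw [if_pos h1, if_neg (by rw [h1]; exact hij)]; norm_num
        · rw [if_neg h1]; split_ifs <;> norm_num
      · rw [Finset.sum_add_distrib]
        simp
        norm_num
    have h1 := hopt' _ hf
    rw [hQ'd, hRd] at h1
    have e1 : ∀ r : Fin n → ℝ, re (trace (diagonal (fun k => (r k : 𝕜)) *
        diagonal (fun k => (q k : 𝕜)))) = ∑ k, r k * q k := by
      intro r
      rw [diagonal_mul_diagonal, trace_diagonal, map_sum]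
      refine Finset.sum_congr rfl fun k _ => ?_
      rw [← RCLike.ofReal_mul, RCLike.ofReal_re]
    rw [e1, e1] at h1
    refine le_trans (le_of_eq ?_) h1
    simp only [add_mul, Finset.sum_add_distrib, ite_mul, one_mul, zero_mul, Finset.sum_ite_eq',
      Finset.mem_univ, if_true]
  have hfin := diag_main (Uᴴ * X * U) lam p q (by rw [fro_rot _ _ hU', hX])
    (by
      rw [hZ', rot_conj, rot_mul _ _ _ hU', rot_mul _ _ _ hU', ← hQ'd]
      exact (rot_add _ _ _).symm)
    hp0 hp1 hp2 (by rw [hZ']; exact hpxx) hmaxx (fun a => Uᴴ * C a * U) N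
    (fun a b hab => by
      rw [rot_conj, rot_mul _ _ _ hU', trace_rot _ _ hU']
      exact horth a b hab)
    (fun a => by rw [fro_rot _ _ hU']; exact hN a) hN0
  have e1 : ∀ a, fro ((Uᴴ * X * U)ᴴ * (Uᴴ * C a * U) - Uᴴ * C a * U * (Uᴴ * X * U)ᴴ) =
      fro (Xᴴ * C a - C a * Xᴴ) := by
    intro a
    rw [rot_conj, rot_mul _ _ _ hU', rot_mul _ _ _ hU', ← sub_mul, ← mul_sub, fro_rot _ _ hU']
  have e2 : ∀ a, fro (Uᴴ * C a * U) = fro (C a) := fun a => fro_rot _ _ hU'
  simp only [e1, e2] at hfin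
  exact hfin

lemma fro_nonneg' (A : Matrix (Fin n) (Fin n) 𝕜) : 0 ≤ fro A := by
  unfold fro
  positivity

lemma fro_smul' (c : ℝ) (A : Matrix (Fin n) (Fin n) 𝕜) : fro ((c : 𝕜) • A) = c ^ 2 * fro A := by
  unfold fro
  rw [Finset.mul_sum]
  refine Finset.sum_congr rfl fun i _ => ?_
  rw [Finset.mul_sum]
  refine Finset.sum_congr rfl fun j _ => ?_
  rw [Matrix.smul_apply, smul_eq_mul, norm_mul, RCLike.norm_ofReal, mul_pow, sq_abs]

lemma fro_conj' (A : Matrix (Fin n) (Fin n) 𝕜) : fro Aᴴ = fro A := by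
  unfold fro
  rw [Finset.sum_comm]
  refine Finset.sum_congr rfl fun i _ => Finset.sum_congr rfl fun j _ => ?_
  rw [conjTranspose_apply, norm_star]

theorem final_statement {k : ℕ} (B : Matrix (Fin n) (Fin n) 𝕜)
    (C : Fin k → Matrix (Fin n) (Fin n) 𝕜)
    (horth : ∀ a b : Fin k, a ≠ b → Matrix.trace (C a * (C b)ᴴ) = 0) :
    ∑ a : Fin k, fro (B * C a - C a * B) ≤
      (2 * (⨆ a : Fin k, fro (C a)) + ∑ a : Fin k, fro (C a)) * fro B := by
  have hN0 : 0 ≤ ⨆ a : Fin k, fro (C a) := Real.iSup_nonneg fun a => fro_nonneg' _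
  have hN : ∀ a, fro (C a) ≤ ⨆ a : Fin k, fro (C a) := fun a =>
    le_ciSup (f := fun a : Fin k => fro (C a)) (Set.finite_range _).bddAbove a
  have hS0 : 0 ≤ ∑ a : Fin k, fro (C a) := Finset.sum_nonneg fun a _ => fro_nonneg' _
  rcases lt_or_ge n 2 with hn | hn
  · have hsub : Subsingleton (Fin n) := by
      rw [Fin.subsingleton_iff_le_one]; omega
    have h0 : ∀ a, fro (B * C a - C a * B) = 0 := by
      intro a
      have : B * C a - C a * B = 0 := by
        ext i j
        have hij : i = j := Subsingleton.elim _ _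
        subst hij
        have : B * C a = C a * B := by
          ext i' j'
          have e1 : i' = j' := Subsingleton.elim _ _
          subst e1
          rw [mul_apply, mul_apply]
          refine Finset.sum_congr rfl fun k' _ => ?_
          have e2 : k' = i' := Subsingleton.elim _ _
          subst e2
          exact mul_comm _ _
        rw [this, sub_self]
      rw [this]
      simp [fro]
    simp only [h0, Finset.sum_const_zero]
    have := fro_nonneg' B
    positivity
  · by_cases hB : fro B = 0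
    · have hB0 : B = 0 := by
        unfold fro at hB
        ext i j
        have h1 := (Finset.sum_eq_zero_iff_of_nonneg
          (fun i _ => Finset.sum_nonneg fun j _ => by positivity)).1 hB i (Finset.mem_univ i)
        have h2 := (Finset.sum_eq_zero_iff_of_nonneg
          (fun j _ => by positivity)).1 h1 j (Finset.mem_univ j)
        rw [Matrix.zero_apply]
        exact norm_eq_zero.1 (pow_eq_zero_iff (two_ne_zero)|>.1 h2)
      subst hB0
      have : ∀ a, fro ((0 : Matrix (Fin n) (Fin n) 𝕜) * C a - C a * 0) = 0 := by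
        intro a
        rw [Matrix.zero_mul, Matrix.mul_zero, sub_zero]
        simp [fro]
      rw [hB, mul_zero]
      exact le_of_eq (Finset.sum_eq_zero fun a _ => this a)
    · have hBpos : 0 < fro B := lt_of_le_of_ne (fro_nonneg' B) (Ne.symm hB)
      set c : ℝ := 1 / Real.sqrt (fro B) with hc
      have hc2 : c ^ 2 * fro B = 1 := by
        rw [hc, div_pow, one_pow, Real.sq_sqrt hBpos.le]
        field_simp
      have hX : fro ((c : 𝕜) • Bᴴ) = 1 := by
        rw [fro_smul', fro_conj', hc2]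
      have h1 := main_unit hn ((c : 𝕜) • Bᴴ) hX C _ horth hN hN0
      have h2 : ∀ a, fro (((c : 𝕜) • Bᴴ)ᴴ * C a - C a * ((c : 𝕜) • Bᴴ)ᴴ) =
          c ^ 2 * fro (B * C a - C a * B) := by
        intro a
        have e : ((c : 𝕜) • Bᴴ)ᴴ = (c : 𝕜) • B := by
          rw [conjTranspose_smul, conjTranspose_conjTranspose]
          congr 1
          exact RCLike.conj_ofReal _
        rw [e, Matrix.smul_mul, Matrix.mul_smul, ← smul_sub, fro_smul']
      simp only [h2] at h1
      rw [← Finset.mul_sum] at h1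
      calc ∑ a : Fin k, fro (B * C a - C a * B)
          = (c ^ 2 * ∑ a : Fin k, fro (B * C a - C a * B)) * fro B := by
            rw [mul_right_comm, hc2, one_mul]
        _ ≤ _ := mul_le_mul_of_nonneg_right h1 hBpos.le

end Pool.Agent.Helper58.LW
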