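import Mathlib

set_option autoImplicit false

namespace Pool.Agent.Helper58.LW

open RCLike

variable {𝕜 : Type*} [RCLike 𝕜] {V : Type*} [NormedAddCommGroup V] [InnerProductSpace 𝕜 V]

/-- Bessel's inequality for an orthogonal family of bounded vectors -/
lemma bessel_orth {κ : Type*} [Fintype κ] [DecidableEq κ] (C : κ → V) (N : ℝ)
    (horth : ∀ a b, a ≠ b → inner 𝕜 (C a) (C b) = 0) (hN : ∀ a, ‖C a‖ ^ 2 ≤ N) (hN0 : 0 ≤ N)
    (u : V) : ∑ a, ‖inner 𝕜 (C a) u‖ ^ 2 ≤ N * ‖u‖ ^ 2 := by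
  set c : κ → 𝕜 := fun a => inner 𝕜 (C a) u with hc
  set w : V := ∑ a, c a • C a with hw
  set S : ℝ := ∑ a, ‖c a‖ ^ 2 with hS
  have hS0 : 0 ≤ S := Finset.sum_nonneg fun a _ => by positivity
  have h1 : ‖w‖ ^ 2 ≤ N * S := by
    have e : inner 𝕜 w w = ((∑ a, ‖c a‖ ^ 2 * ‖C a‖ ^ 2 : ℝ) : 𝕜) := by
      rw [hw, sum_inner]
      push_cast
      refine Finset.sum_congr rfl fun a _ => ?_
      rw [inner_sum, Finset.sum_eq_single a]
      · rw [inner_smul_left, inner_smul_right, inner_self_eq_norm_sq_to_K, ← mul_assoc,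
          RCLike.conj_mul]
      · intro b _ hb
        rw [inner_smul_left, inner_smul_right, horth a b (Ne.symm hb), mul_zero, mul_zero]
      · intro h; exact absurd (Finset.mem_univ a) h
    have e2 : ‖w‖ ^ 2 = ∑ a, ‖c a‖ ^ 2 * ‖C a‖ ^ 2 := by
      have h3 := inner_self_eq_norm_sq (𝕜 := 𝕜) w
      rw [e, RCLike.ofReal_re] at h3
      exact h3.symm
    rw [e2, hS, Finset.mul_sum]
    refine Finset.sum_le_sum fun a _ => ?_
    rw [mul_comm]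
    exact mul_le_mul_of_nonneg_right (hN a) (by positivity)
  have h2 : re (inner 𝕜 w u) = S := by
    rw [hw, sum_inner, map_sum, hS]
    refine Finset.sum_congr rfl fun a _ => ?_
    rw [inner_smul_left]
    change re ((starRingEnd 𝕜) (c a) * c a) = _
    rw [RCLike.conj_mul]
    norm_cast
  have h3 : S ≤ ‖w‖ * ‖u‖ := by
    rw [← h2]
    exact (RCLike.re_le_norm _).trans (norm_inner_le_norm _ _)
  have h4 : S ^ 2 ≤ (N * S) * ‖u‖ ^ 2 := by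
    calc S ^ 2 ≤ (‖w‖ * ‖u‖) ^ 2 := pow_le_pow_left₀ hS0 h3 2
      _ = ‖w‖ ^ 2 * ‖u‖ ^ 2 := by ring
      _ ≤ (N * S) * ‖u‖ ^ 2 := mul_le_mul_of_nonneg_right h1 (by positivity)
  rcases hS0.eq_or_lt with h | h
  · rw [← h]; positivity
  · have h5 : S * S ≤ S * (N * ‖u‖ ^ 2) := by nlinarith
    exact le_of_mul_le_mul_left h5 h

/-- abstract certificate lemma -/
theorem certificate {κ : Type*} [Fintype κ] (e : OrthonormalBasis κ 𝕜 V)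
    (L L' : V →ₗ[𝕜] V) (hadj : ∀ u v, inner 𝕜 (L u) v = inner 𝕜 u (L' v))
    (s γ : κ → ℝ) (hγ0 : ∀ k, 0 ≤ γ k) (hγ1 : ∀ k, γ k ≤ 1)
    (hsγ : ∀ k, s k * (1 - γ k) ≤ 1)
    (hL : ∀ W : V, ‖L W‖ ^ 2 ≤ ∑ k, s k * ‖inner 𝕜 (e k) W‖ ^ 2)
    (htr : ∑ k, γ k * ‖L (e k)‖ ^ 2 ≤ 2)
    {α : Type*} [Fintype α] [DecidableEq α] (C : α → V) (N : ℝ)
    (horth : ∀ a b, a ≠ b → inner 𝕜 (C a) (C b) = 0) (hN : ∀ a, ‖C a‖ ^ 2 ≤ N) (hN0 : 0 ≤ N) :
    ∑ a, ‖L' (C a)‖ ^ 2 ≤ 2 * N + ∑ a, ‖C a‖ ^ 2 := by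
  classical
  -- pointwise
  have hpt : ∀ Y : V, ‖L' Y‖ ^ 2 ≤ ‖Y‖ ^ 2 + ∑ k, γ k * ‖inner 𝕜 (L (e k)) Y‖ ^ 2 := by
    intro Y
    set W := L' Y with hW
    have hco : ∀ k, inner 𝕜 (e k) W = inner 𝕜 (L (e k)) Y := fun k => (hadj _ _).symm
    have hWn : ‖W‖ ^ 2 = ∑ k, ‖inner 𝕜 (e k) W‖ ^ 2 := by
      rw [← e.sum_sq_norm_inner_right W]
    set c : κ → ℝ := fun k => 1 - γ k with hc
    have hc0 : ∀ k, 0 ≤ c k := fun k => by simp only [hc]; linarith [hγ1 k]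
    set K : ℝ := ∑ k, c k * ‖inner 𝕜 (e k) W‖ ^ 2 with hK
    have hK0 : 0 ≤ K := Finset.sum_nonneg fun k _ => mul_nonneg (hc0 k) (by positivity)
    set W' : V := ∑ k, ((c k : 𝕜) * inner 𝕜 (e k) W) • e k with hW'
    have hW'k : ∀ k, inner 𝕜 (e k) W' = (c k : 𝕜) * inner 𝕜 (e k) W := by
      intro k
      rw [hW', inner_sum, Finset.sum_eq_single k]
      · rw [inner_smul_right, inner_self_eq_norm_sq_to_K, e.orthonormal.1 k]
        simp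
      · intro b _ hb
        rw [inner_smul_right, e.orthonormal.2 (Ne.symm hb), mul_zero]
      · intro h; exact absurd (Finset.mem_univ k) h
    have hLW' : ‖L W'‖ ^ 2 ≤ K := by
      refine (hL W').trans ?_
      rw [hK]
      refine Finset.sum_le_sum fun k _ => ?_
      rw [hW'k k, norm_mul, RCLike.norm_ofReal, abs_of_nonneg (hc0 k), mul_pow]
      have h1 : s k * (c k ^ 2 * ‖inner 𝕜 (e k) W‖ ^ 2) =
        (s k * c k) * (c k * ‖inner 𝕜 (e k) W‖ ^ 2) := by ring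
      rw [h1]
      have h2 : 0 ≤ c k * ‖inner 𝕜 (e k) W‖ ^ 2 := mul_nonneg (hc0 k) (by positivity)
      calc (s k * c k) * (c k * ‖inner 𝕜 (e k) W‖ ^ 2)
          ≤ 1 * (c k * ‖inner 𝕜 (e k) W‖ ^ 2) := mul_le_mul_of_nonneg_right (hsγ k) h2
        _ = _ := one_mul _
    have hKre : re (inner 𝕜 W' W) = K := by
      rw [hW', sum_inner, map_sum, hK]
      refine Finset.sum_congr rfl fun k _ => ?_
      have e1 : inner 𝕜 (((c k : 𝕜) * inner 𝕜 (e k) W) • e k) W =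
          ((c k * ‖inner 𝕜 (e k) W‖ ^ 2 : ℝ) : 𝕜) := by
        rw [inner_smul_left, map_mul, RCLike.conj_ofReal, mul_assoc, RCLike.conj_mul]
        push_cast
        ring
      rw [e1, RCLike.ofReal_re]
    have hK1 : K ≤ ‖L W'‖ * ‖Y‖ := by
      rw [← hKre, hW, ← hadj]
      exact (RCLike.re_le_norm _).trans (norm_inner_le_norm _ _)
    have hK2 : K ≤ ‖Y‖ ^ 2 := by
      rcases hK0.eq_or_lt with h | h
      · rw [← h]; positivity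
      · have h1 : K ^ 2 ≤ K * ‖Y‖ ^ 2 := by
          calc K ^ 2 ≤ (‖L W'‖ * ‖Y‖) ^ 2 := pow_le_pow_left₀ hK0 hK1 2
            _ = ‖L W'‖ ^ 2 * ‖Y‖ ^ 2 := by ring
            _ ≤ K * ‖Y‖ ^ 2 := mul_le_mul_of_nonneg_right hLW' (by positivity)
        have h2 : K * K ≤ K * ‖Y‖ ^ 2 := by nlinarith
        exact le_of_mul_le_mul_left h2 h
    have h3 : ‖W‖ ^ 2 = K + ∑ k, γ k * ‖inner 𝕜 (e k) W‖ ^ 2 := by
      rw [hWn, hK, ← Finset.sum_add_distrib]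
      refine Finset.sum_congr rfl fun k _ => ?_
      simp only [hc]; ring
    rw [h3]
    have h4 : ∑ k, γ k * ‖inner 𝕜 (e k) W‖ ^ 2 = ∑ k, γ k * ‖inner 𝕜 (L (e k)) Y‖ ^ 2 :=
      Finset.sum_congr rfl fun k _ => by rw [hco k]
    rw [h4]
    linarith
  have hsum : ∑ a, ‖L' (C a)‖ ^ 2 ≤
      ∑ a, (‖C a‖ ^ 2 + ∑ k, γ k * ‖inner 𝕜 (L (e k)) (C a)‖ ^ 2) :=
    Finset.sum_le_sum fun a _ => hpt (C a)
  refine hsum.trans ?_
  rw [Finset.sum_add_distrib, Finset.sum_comm]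
  have h5 : ∑ k, ∑ a, γ k * ‖inner 𝕜 (L (e k)) (C a)‖ ^ 2 ≤ N * ∑ k, γ k * ‖L (e k)‖ ^ 2 := by
    rw [Finset.mul_sum]
    refine Finset.sum_le_sum fun k _ => ?_
    rw [← Finset.mul_sum]
    have h6 : ∑ a, ‖inner 𝕜 (L (e k)) (C a)‖ ^ 2 ≤ N * ‖L (e k)‖ ^ 2 := by
      have := bessel_orth C N horth hN hN0 (L (e k))
      refine le_trans (le_of_eq ?_) this
      exact Finset.sum_congr rfl fun a _ => by rw [norm_inner_symm]
    calc γ k * ∑ a, ‖inner 𝕜 (L (e k)) (C a)‖ ^ 2 ≤ γ k * (N * ‖L (e k)‖ ^ 2) :=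
          mul_le_mul_of_nonneg_left h6 (hγ0 k)
      _ = _ := by ring
  have h7 : N * ∑ k, γ k * ‖L (e k)‖ ^ 2 ≤ N * 2 := mul_le_mul_of_nonneg_left htr hN0
  linarith

end Pool.Agent.Helper58.LW
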