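import Pool.Agent.Helper58.LW.Scalar3

set_option autoImplicit false

namespace Pool.Agent.Helper58.LW

variable {ι : Type*} [Fintype ι] [DecidableEq ι]
variable {E : Type*} [NormedAddCommGroup E] [InnerProductSpace ℝ E]

/-- the main inequality -/
lemma MI (x : ι → E) (lam : E) (d p q : ι → ℝ) (b g tp t : ℝ)
    (hd : ∀ i, 0 ≤ d i) (hbal : ∀ i, 2 * d i ≤ ∑ j, d j)
    (hq : ∀ i, q i = 2 * ‖x i‖ ^ 2 + 2 * d i)
    (hw : ∑ i, (‖x i + lam‖ ^ 2 + d i) = 1)
    (hp0 : ∀ i, 0 ≤ p i) (hp1 : ∀ i, p i ≤ 1) (hp2 : ∑ i, p i = 2)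
    (hpx : ∑ i, p i • x i = 0)
    (hmax : ∀ i j, i ≠ j → q i + q j ≤ ∑ k, p k * q k) (i0 : ι) (hi0 : ∀ i, q i ≤ q i0)
    (hb0 : 0 < b) (hb : b = √2 * ‖lam‖)
    (hgb : b ≤ g) (htp : tp = b * g) (hq1 : q i0 = 1 - tp) (ht : t = 1 - 2 * tp) (ht0 : 0 < t) :
    (∑ i, max (q i - tp) 0) ^ 2 / 2 -
      2 * ∑ i, ∑ j, inner ℝ (max (q i - tp) 0 • x i) (max (q j - tp) 0 • x j) / (q i + q j)
      ≤ 2 * t := by
  have hg : 0 < g := lt_of_lt_of_le hb0 hgb
  have htp0 : 0 < tp := by rw [htp]; positivity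
  have hq10 : 0 < q i0 := by linarith
  have hg2 : 0 < g ^ 2 := by positivity
  have h2 : √2 * √2 = (2 : ℝ) := Real.mul_self_sqrt (by norm_num)
  have hb2 : b ^ 2 = 2 * ‖lam‖ ^ 2 := by
    rw [hb]
    calc (√2 * ‖lam‖) ^ 2 = (√2 * √2) * ‖lam‖ ^ 2 := by ring
      _ = _ := by rw [h2]
  have hK := cauchy_lower (fun i => max (q i - tp) 0 • x i) q (g ^ 2) hg2 (fun i => by
    rcases le_or_gt (q i) 0 with h | h
    · left
      rw [max_eq_right (by linarith), zero_smul]
    · right; exact h)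
  set 𝒦 := ∑ i, ∑ j, inner ℝ (max (q i - tp) 0 • x i) (max (q j - tp) 0 • x j) / (q i + q j)
    with h𝒦
  set v := ∑ i, (g ^ 2 + q i)⁻¹ • max (q i - tp) 0 • x i with hv
  set R := ∑ i, max (q i - tp) 0 with hR
  have hK0 : 0 ≤ 𝒦 := le_trans (by positivity) hK
  have hR0 : 0 ≤ R := Finset.sum_nonneg fun i _ => le_max_right _ _
  obtain ⟨hδ0, hcase⟩ := p_struct p q hp0 hp1 hp2 hmax i0 hi0
  have ht1 : t ≤ 1 := by linarith
  rcases le_or_gt (2 * q i0 - ∑ k, p k * q k) t with hδt | hδt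
  · have hstar := star_ineq x lam d p q b g tp t hd hbal hq hw hp0 hp1 hp2 hpx hmax i0 hi0 hb0 hb
      hgb htp hq1 ht ht0 hδt
    have hS : ∑ i, (max (q i - tp) 0 *
        (q i0 + 4 * g ^ 2 * inner ℝ (x i) lam / (g ^ 2 + q i))) =
        q i0 * R + 4 * g ^ 2 * inner ℝ v lam := by
      rw [hv, sum_inner, hR, Finset.mul_sum, Finset.mul_sum, ← Finset.sum_add_distrib]
      refine Finset.sum_congr rfl fun i _ => ?_
      rw [real_inner_smul_left, real_inner_smul_left]
      ring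
    rw [hS] at hstar
    set S := inner ℝ v lam with hSdef
    have hCS : S ^ 2 ≤ ‖v‖ ^ 2 * ‖lam‖ ^ 2 := by
      have h3 := abs_real_inner_le_norm v lam
      have h4 : |S| ^ 2 ≤ (‖v‖ * ‖lam‖) ^ 2 := pow_le_pow_left₀ (abs_nonneg _) h3 2
      rw [sq_abs] at h4
      calc S ^ 2 ≤ (‖v‖ * ‖lam‖) ^ 2 := h4
        _ = _ := by ring
    -- tp² * 2𝒦 ≥ (4 g² S)² / 2
    have h5 : (4 * g ^ 2 * S) ^ 2 / 2 ≤ tp ^ 2 * (2 * 𝒦) := by
      have h6 : (4 * g ^ 2 * S) ^ 2 / 2 = 8 * g ^ 4 * S ^ 2 := by ring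
      have h7 : 8 * g ^ 4 * S ^ 2 ≤ 8 * g ^ 4 * (‖v‖ ^ 2 * ‖lam‖ ^ 2) :=
        mul_le_mul_of_nonneg_left hCS (by positivity)
      have h8 : 8 * g ^ 4 * (‖v‖ ^ 2 * ‖lam‖ ^ 2) = 2 * tp ^ 2 * (2 * g ^ 2 * ‖v‖ ^ 2) := by
        have : 8 * g ^ 4 * (‖v‖ ^ 2 * ‖lam‖ ^ 2) = 4 * g ^ 4 * ‖v‖ ^ 2 * (2 * ‖lam‖ ^ 2) := by ring
        rw [this, ← hb2, htp]; ring
      have h9 : 2 * tp ^ 2 * (2 * g ^ 2 * ‖v‖ ^ 2) ≤ 2 * tp ^ 2 * 𝒦 :=
        mul_le_mul_of_nonneg_left hK (by positivity)
      linarith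
    rcases le_or_gt (2 * t) (q i0 * R) with hcs | hcs
    · have h10 : (q i0 * R - 2 * t) ^ 2 ≤ (4 * g ^ 2 * S) ^ 2 := by
        have h11 : 0 ≤ q i0 * R - 2 * t := by linarith
        have h12 : q i0 * R - 2 * t ≤ -(4 * g ^ 2 * S) := by linarith
        calc (q i0 * R - 2 * t) ^ 2 ≤ (-(4 * g ^ 2 * S)) ^ 2 := pow_le_pow_left₀ h11 h12 2
          _ = _ := by ring
      have h13 : (q i0 * R - 2 * t) ^ 2 = tp ^ 2 * (R ^ 2 - 4 * t) + t * (R - 2 * (1 - tp)) ^ 2 := by
        rw [hq1, ht]; ring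
      have h14 : 0 ≤ t * (R - 2 * (1 - tp)) ^ 2 := by positivity
      have h15 : tp ^ 2 * (R ^ 2 - 4 * t) / 2 ≤ tp ^ 2 * (2 * 𝒦) := by linarith
      have h16 : tp ^ 2 * ((R ^ 2 - 4 * t) / 2) ≤ tp ^ 2 * (2 * 𝒦) := by linarith
      have h17 := le_of_mul_le_mul_left h16 (by positivity)
      linarith
    · have h18 : (q i0 * R) ^ 2 ≤ (2 * t) ^ 2 := pow_le_pow_left₀ (by positivity) hcs.le 2
      have h19 : t ≤ q i0 ^ 2 := by rw [ht, hq1]; nlinarith [sq_nonneg tp]
      have h20 : q i0 ^ 2 * R ^ 2 ≤ q i0 ^ 2 * (4 * t) := by nlinarith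
      have h21 := le_of_mul_le_mul_left h20 (by positivity)
      linarith
  · -- δ > t
    rcases hcase with ⟨h0, _⟩ | ⟨hpos, hp10, hle, _⟩
    · linarith
    · have hRt : R = t := by
        rw [hR, ← Finset.add_sum_erase Finset.univ _ (Finset.mem_univ i0)]
        have h1 : max (q i0 - tp) 0 = t := by rw [hq1, ht, max_eq_left] <;> linarith
        have h3 : ∑ i ∈ Finset.univ.erase i0, max (q i - tp) 0 = 0 := by
          apply Finset.sum_eq_zero
          intro i hi
          have := hle i (Finset.ne_of_mem_erase hi)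
          rw [max_eq_right]
          linarith
        rw [h1, h3, add_zero]
      rw [hRt]
      nlinarith

theorem scalar_main (x : ι → E) (lam : E) (d p q : ι → ℝ)
    (hd : ∀ i, 0 ≤ d i) (hbal : ∀ i, 2 * d i ≤ ∑ j, d j)
    (hq : ∀ i, q i = 2 * ‖x i‖ ^ 2 + 2 * d i)
    (hw : ∑ i, (‖x i + lam‖ ^ 2 + d i) = 1)
    (hp0 : ∀ i, 0 ≤ p i) (hp1 : ∀ i, p i ≤ 1) (hp2 : ∑ i, p i = 2)
    (hpx : ∑ i, p i • x i = 0)
    (hmax : ∀ i j, i ≠ j → q i + q j ≤ ∑ k, p k * q k) :
    ∃ γ : ι → ι → ℝ, (∀ i j, γ i j = γ j i) ∧ (∀ i j, 0 ≤ γ i j) ∧ (∀ i j, γ i j ≤ 1) ∧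
      (∀ i j, (q i + q j) * (1 - γ i j) ≤ 1) ∧
      ∑ i, ∑ j, γ i j * ((q i + q j) / 2 - 2 * inner ℝ (x i) (x j)) ≤ 2 := by
  have : Nonempty ι := by
    by_contra h
    rw [not_nonempty_iff] at h
    rw [Fintype.sum_empty] at hp2
    norm_num at hp2
  obtain ⟨i0, hi0⟩ := Finite.exists_max q
  have hq0 : ∀ i, 0 ≤ q i := fun i => by rw [hq i]; have := hd i; positivity
  obtain ⟨hδ0, _⟩ := p_struct p q hp0 hp1 hp2 hmax i0 hi0
  obtain ⟨hB, hx0⟩ := B_ineq x d p q hd hbal hq hp0 hp1 hp2 hpx hmax i0 hi0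
  have hA := A_id x lam d p q hq hw hp2 hpx
  obtain ⟨tp, htp⟩ : ∃ tp, tp = 1 - q i0 := ⟨_, rfl⟩
  -- 2‖lam‖² ≤ tp
  have htau : 2 * ‖lam‖ ^ 2 ≤ tp := by
    have h1 : 0 ≤ ∑ i, (1 - p i) * ‖x i + lam‖ ^ 2 :=
      Finset.sum_nonneg fun i _ => mul_nonneg (by linarith [hp1 i]) (by positivity)
    have h2 : ∑ i, (1 - p i) * (‖x i + lam‖ ^ 2 + d i) =
        ∑ i, (1 - p i) * ‖x i + lam‖ ^ 2 + ∑ i, (1 - p i) * d i := by
      rw [← Finset.sum_add_distrib]
      exact Finset.sum_congr rfl fun i _ => by ring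
    rw [h2] at hA
    linarith
  have htp0 : 0 ≤ tp := le_trans (by positivity) htau
  by_cases ht : 2 * q i0 - 1 ≤ 0
  · refine ⟨fun _ _ => 0, fun _ _ => rfl, fun _ _ => le_refl _, fun _ _ => zero_le_one,
      fun i j => ?_, ?_⟩
    · have := hi0 i; have := hi0 j
      linarith
    · simp
  · push Not at ht
    by_cases hlam : ‖lam‖ = 0
    · -- λ = 0
      have hq1' : ∀ i, q i ≤ 1 := fun i => by have := hi0 i; linarith
      refine ⟨fun i j => q i * q j / (q i + q j), fun i j => by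
        dsimp only
        rw [mul_comm (q i), add_comm (q i)],
        fun i j => div_nonneg (mul_nonneg (hq0 i) (hq0 j)) (add_nonneg (hq0 i) (hq0 j)),
        fun i j => ?_, fun i j => ?_, ?_⟩
      · apply div_le_one_of_le₀ _ (add_nonneg (hq0 i) (hq0 j))
        nlinarith [hq0 i, hq0 j, hq1' i, hq1' j]
      · rcases (add_nonneg (hq0 i) (hq0 j)).eq_or_lt with h | h
        · rw [← h]; simp
        · have : (q i + q j) * (1 - q i * q j / (q i + q j)) = q i + q j - q i * q j := by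
            field_simp
          rw [this]
          nlinarith [mul_nonneg (sub_nonneg.2 (hq1' i)) (sub_nonneg.2 (hq1' j))]
      · have hterm : ∀ i j, q i * q j / (q i + q j) *
            ((q i + q j) / 2 - 2 * inner ℝ (x i) (x j)) =
            q i * q j / 2 - 2 * (inner ℝ (q i • x i) (q j • x j) / (q i + q j)) := by
          intro i j
          rw [real_inner_smul_left, real_inner_smul_right]
          rcases (add_nonneg (hq0 i) (hq0 j)).eq_or_lt with h | h
          · have h1 : q i = 0 := by linarith [hq0 i, hq0 j]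
            rw [← h, h1]; simp
          · field_simp
        simp_rw [hterm]
        simp only [Finset.sum_sub_distrib]
        have hsum1 : ∑ i, ∑ j, q i * q j / 2 = (∑ i, q i) ^ 2 / 2 := by
          rw [sq, Finset.sum_mul_sum, Finset.sum_div]
          exact Finset.sum_congr rfl fun i _ => by rw [Finset.sum_div]
        have hsum2 : ∑ i, ∑ j, 2 * (inner ℝ (q i • x i) (q j • x j) / (q i + q j)) =
            2 * ∑ i, ∑ j, inner ℝ (q i • x i) (q j • x j) / (q i + q j) := by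
          rw [Finset.mul_sum]
          exact Finset.sum_congr rfl fun i _ => by rw [Finset.mul_sum]
        have hnn := cauchy_lower (fun i => q i • x i) q 1 one_pos (fun i => by
          rcases (hq0 i).eq_or_lt with h | h
          · left; rw [← h, zero_smul]
          · right; exact h)
        have hnn' : 0 ≤ ∑ i, ∑ j, inner ℝ (q i • x i) (q j • x j) / (q i + q j) :=
          le_trans (by positivity) hnn
        have hqs : ∑ i, q i = 2 := by
          have : ∑ i, q i = 2 * ∑ i, (‖x i + lam‖ ^ 2 + d i) := by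
            rw [Finset.mul_sum]
            refine Finset.sum_congr rfl fun i _ => ?_
            rw [norm_eq_zero] at hlam
            rw [hq i, hlam, add_zero]; ring
          rw [this, hw]; norm_num
        rw [hsum1, hsum2, hqs]
        linarith
    · -- λ ≠ 0
      have hlam0 : 0 < ‖lam‖ := lt_of_le_of_ne (norm_nonneg _) (Ne.symm hlam)
      obtain ⟨b, hb⟩ : ∃ b, b = √2 * ‖lam‖ := ⟨_, rfl⟩
      have hb0 : 0 < b := by rw [hb]; positivity
      have h2 : √2 * √2 = (2 : ℝ) := Real.mul_self_sqrt (by norm_num)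
      have hb2 : b ^ 2 = 2 * ‖lam‖ ^ 2 := by
        rw [hb]
        calc (√2 * ‖lam‖) ^ 2 = (√2 * √2) * ‖lam‖ ^ 2 := by ring
          _ = _ := by rw [h2]
      obtain ⟨g, hg⟩ : ∃ g, g = tp / b := ⟨_, rfl⟩
      have htpb : tp = b * g := by rw [hg]; field_simp
      have hgb : b ≤ g := by
        rw [hg, le_div_iff₀ hb0, ← sq, hb2]; exact htau
      obtain ⟨t, htt⟩ : ∃ t, t = 1 - 2 * tp := ⟨_, rfl⟩
      have ht0 : 0 < t := by rw [htt, htp]; linarith
      have hMI := MI x lam d p q b g tp t hd hbal hq hw hp0 hp1 hp2 hpx hmax i0 hi0 hb0 hb hgb htpb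
        (by linarith) htt ht0
      set α : ι → ℝ := fun i => max (q i - tp) 0 with hα
      have hα0 : ∀ i, 0 ≤ α i := fun i => le_max_right _ _
      have hαt : ∀ i, α i ≤ t := fun i => max_le (by have := hi0 i; linarith) ht0.le
      have hαq : ∀ i, α i ≤ q i := fun i => max_le (by linarith) (hq0 i)
      refine ⟨fun i j => α i * α j / (t * (q i + q j)), fun i j => by
        dsimp only
        rw [mul_comm (α i), add_comm (q i)], fun i j => ?_, fun i j => ?_, fun i j => ?_, ?_⟩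
      · exact div_nonneg (mul_nonneg (hα0 i) (hα0 j))
          (mul_nonneg ht0.le (add_nonneg (hq0 i) (hq0 j)))
      · apply div_le_one_of_le₀ _ (mul_nonneg ht0.le (add_nonneg (hq0 i) (hq0 j)))
        calc α i * α j ≤ t * q j := mul_le_mul (hαt i) (hαq j) (hα0 j) ht0.le
          _ ≤ t * (q i + q j) := mul_le_mul_of_nonneg_left (by linarith [hq0 i]) ht0.le
      · rcases (add_nonneg (hq0 i) (hq0 j)).eq_or_lt with h | h
        · rw [← h]; simp
        · have e : (q i + q j) * (1 - α i * α j / (t * (q i + q j))) =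
            (t * (q i + q j) - α i * α j) / t := by field_simp
          rw [e, div_le_one ht0]
          have hi := hi0 i
          have hj := hi0 j
          rcases le_total (q i) tp with h1 | h1
          · have : α i = 0 := max_eq_right (by linarith)
            rw [this]; nlinarith
          · rcases le_total (q j) tp with h2 | h2
            · have : α j = 0 := max_eq_right (by linarith)
              rw [this]; nlinarith
            · have e1 : α i = q i - tp := max_eq_left (by linarith)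
              have e2 : α j = q j - tp := max_eq_left (by linarith)
              rw [e1, e2]
              have : (q i - tp) * (q j - tp) - t * (q i + q j - 1) =
                (q i0 - q i) * (q i0 - q j) := by rw [htt, htp]; ring
              nlinarith [mul_nonneg (sub_nonneg.2 hi) (sub_nonneg.2 hj)]
      · have hterm : ∀ i j, α i * α j / (t * (q i + q j)) *
            ((q i + q j) / 2 - 2 * inner ℝ (x i) (x j)) =
            (α i * α j / 2 - 2 * (inner ℝ (α i • x i) (α j • x j) / (q i + q j))) / t := by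
          intro i j
          rw [real_inner_smul_left, real_inner_smul_right]
          rcases (add_nonneg (hq0 i) (hq0 j)).eq_or_lt with h | h
          · have h1 : q i = 0 := by linarith [hq0 i, hq0 j]
            have h3 : α i = 0 := le_antisymm (by have := hαq i; linarith) (hα0 i)
            rw [← h, h3]; simp
          · field_simp
        simp_rw [hterm, ← Finset.sum_div]
        rw [div_le_iff₀ ht0]
        simp only [Finset.sum_sub_distrib]
        have hsum1 : ∑ i, ∑ j, α i * α j / 2 = (∑ i, α i) ^ 2 / 2 := by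
          rw [sq, Finset.sum_mul_sum, Finset.sum_div]
          exact Finset.sum_congr rfl fun i _ => by rw [Finset.sum_div]
        have hsum2 : ∑ i, ∑ j, 2 * (inner ℝ (α i • x i) (α j • x j) / (q i + q j)) =
            2 * ∑ i, ∑ j, inner ℝ (α i • x i) (α j • x j) / (q i + q j) := by
          rw [Finset.mul_sum]
          exact Finset.sum_congr rfl fun i _ => by rw [Finset.mul_sum]
        rw [hsum1, hsum2]
        exact hMI

end Pool.Agent.Helper58.LW
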