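import Pool.Agent.Helper58.LW.Hilbert
import Pool.Agent.Helper58.LW.Scalar4

set_option autoImplicit false

namespace Pool.Agent.Helper58.LW

open RCLike Matrix

variable {𝕜 : Type*} [RCLike 𝕜] {n : ℕ}

/-- squared Frobenius norm -/
noncomputable def fro (A : Matrix (Fin n) (Fin n) 𝕜) : ℝ := ∑ i, ∑ j, ‖A i j‖ ^ 2

lemma fro_nonneg (A : Matrix (Fin n) (Fin n) 𝕜) : 0 ≤ fro A :=
  Finset.sum_nonneg fun _ _ => Finset.sum_nonneg fun _ _ => by positivity

lemma trace_conjTranspose_mul (A B : Matrix (Fin n) (Fin n) 𝕜) :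
    trace (Aᴴ * B) = ∑ i, ∑ j, (starRingEnd 𝕜) (A i j) * B i j := by
  simp only [trace, diag_apply, mul_apply, conjTranspose_apply]
  rw [Finset.sum_comm]
  rfl

lemma fro_eq_trace (A : Matrix (Fin n) (Fin n) 𝕜) : ((fro A : ℝ) : 𝕜) = trace (Aᴴ * A) := by
  rw [trace_conjTranspose_mul, fro]
  push_cast
  refine Finset.sum_congr rfl fun i _ => Finset.sum_congr rfl fun j _ => ?_
  rw [RCLike.conj_mul]

lemma fro_eq_re (A : Matrix (Fin n) (Fin n) 𝕜) : fro A = re (trace (Aᴴ * A)) := by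
  rw [← fro_eq_trace, RCLike.ofReal_re]

/-- vectorisation -/
noncomputable def mvec : Matrix (Fin n) (Fin n) 𝕜 ≃ₗ[𝕜] EuclideanSpace 𝕜 (Fin n × Fin n) where
  toFun A := WithLp.toLp 2 (fun ij => A ij.1 ij.2)
  invFun v := Matrix.of fun i j => v (i, j)
  map_add' A B := by ext ij; simp
  map_smul' c A := by ext ij; simp
  left_inv A := by ext i j; simp
  right_inv v := by ext ij; simp

lemma mvec_apply (A : Matrix (Fin n) (Fin n) 𝕜) (ij : Fin n × Fin n) :
    mvec A ij = A ij.1 ij.2 := rfl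

lemma mvec_symm_apply (v : EuclideanSpace 𝕜 (Fin n × Fin n)) (i j : Fin n) :
    mvec.symm v i j = v (i, j) := rfl

lemma norm_mvec_sq (A : Matrix (Fin n) (Fin n) 𝕜) : ‖mvec A‖ ^ 2 = fro A := by
  rw [EuclideanSpace.norm_sq_eq, Fintype.sum_prod_type]
  rfl

lemma inner_mvec (A B : Matrix (Fin n) (Fin n) 𝕜) :
    inner 𝕜 (mvec A) (mvec B) = trace (Aᴴ * B) := by
  rw [trace_conjTranspose_mul, PiLp.inner_apply, Fintype.sum_prod_type]
  refine Finset.sum_congr rfl fun i _ => Finset.sum_congr rfl fun j _ => ?_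
  rw [mvec_apply, mvec_apply, RCLike.inner_apply, mul_comm]

/-- commutator with a fixed matrix, on vectors -/
noncomputable def comL (X : Matrix (Fin n) (Fin n) 𝕜) :
    EuclideanSpace 𝕜 (Fin n × Fin n) →ₗ[𝕜] EuclideanSpace 𝕜 (Fin n × Fin n) where
  toFun v := mvec (X * mvec.symm v - mvec.symm v * X)
  map_add' u v := by
    rw [← map_add]
    congr 1
    rw [map_add, mul_add, add_mul]
    abel
  map_smul' c v := by
    rw [RingHom.id_apply, ← map_smul]
    congr 1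
    rw [map_smul, mul_smul_comm, smul_mul_assoc, smul_sub]

lemma comL_mvec (X A : Matrix (Fin n) (Fin n) 𝕜) : comL X (mvec A) = mvec (X * A - A * X) := by
  change mvec (X * mvec.symm (mvec A) - mvec.symm (mvec A) * X) = _
  rw [LinearEquiv.symm_apply_apply]

lemma comL_adj (X : Matrix (Fin n) (Fin n) 𝕜) (u v : EuclideanSpace 𝕜 (Fin n × Fin n)) :
    inner 𝕜 (comL X u) v = inner 𝕜 u (comL Xᴴ v) := by
  obtain ⟨A, rfl⟩ := mvec.surjective u
  obtain ⟨B, rfl⟩ := mvec.surjective v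
  rw [comL_mvec, comL_mvec, inner_mvec, inner_mvec, conjTranspose_sub, conjTranspose_mul,
    conjTranspose_mul, sub_mul, mul_sub, trace_sub, trace_sub]
  congr 1
  · rw [Matrix.mul_assoc]
  · rw [Matrix.mul_assoc, Matrix.trace_mul_comm, Matrix.mul_assoc]

lemma com_shift (X A : Matrix (Fin n) (Fin n) 𝕜) (lam : 𝕜) :
    X * A - A * X = (X - lam • (1 : Matrix (Fin n) (Fin n) 𝕜)) * A -
      A * (X - lam • (1 : Matrix (Fin n) (Fin n) 𝕜)) := by
  rw [sub_mul, mul_sub, smul_mul_assoc, mul_smul_comm, one_mul, mul_one]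
  abel

/-- parallelogram type identity -/
lemma fro_comm_add (Z A : Matrix (Fin n) (Fin n) 𝕜) :
    fro (Z * A - A * Z) + fro (Zᴴ * A + A * Zᴴ) =
      re (trace (Aᴴ * (Zᴴ * Z + Z * Zᴴ) * A)) + re (trace (A * (Zᴴ * Z + Z * Zᴴ) * Aᴴ)) := by
  rw [fro_eq_re, fro_eq_re, ← map_add, ← map_add]
  congr 1
  simp only [conjTranspose_sub, conjTranspose_add, conjTranspose_mul, conjTranspose_conjTranspose,
    sub_mul, mul_sub, add_mul, mul_add, trace_sub, trace_add]
  have e1 : trace (Aᴴ * Zᴴ * (A * Z)) = trace (Z * Aᴴ * (Zᴴ * A)) := by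
    rw [← Matrix.mul_assoc, Matrix.trace_mul_comm]
    simp only [Matrix.mul_assoc]
  have e2 : trace (Zᴴ * Aᴴ * (Z * A)) = trace (Aᴴ * Z * (A * Zᴴ)) := by
    rw [Matrix.mul_assoc, Matrix.trace_mul_comm]
    simp only [Matrix.mul_assoc]
  have e3 : trace (Zᴴ * Aᴴ * (A * Z)) = trace (A * (Z * Zᴴ) * Aᴴ) := by
    rw [Matrix.trace_mul_comm]
    simp only [Matrix.mul_assoc]
  have e4 : trace (Z * Aᴴ * (A * Zᴴ)) = trace (A * (Zᴴ * Z) * Aᴴ) := by
    rw [Matrix.trace_mul_comm]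
    simp only [Matrix.mul_assoc]
  have e5 : trace (Aᴴ * Zᴴ * (Z * A)) = trace (Aᴴ * (Zᴴ * Z) * A) := by
    simp only [Matrix.mul_assoc]
  have e6 : trace (Aᴴ * Z * (Zᴴ * A)) = trace (Aᴴ * (Z * Zᴴ) * A) := by
    simp only [Matrix.mul_assoc]
  rw [e1, e2, e3, e4, e5, e6]
  ring

lemma re_trace_diag_left (q : Fin n → ℝ) (A : Matrix (Fin n) (Fin n) 𝕜) :
    re (trace (Aᴴ * diagonal (fun i => (q i : 𝕜)) * A)) = ∑ i, ∑ j, q i * ‖A i j‖ ^ 2 := by
  rw [Matrix.mul_assoc, trace_conjTranspose_mul, map_sum]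
  refine Finset.sum_congr rfl fun i _ => ?_
  rw [map_sum]
  refine Finset.sum_congr rfl fun j _ => ?_
  rw [diagonal_mul, mul_left_comm, RCLike.conj_mul]
  norm_cast

lemma re_trace_diag_right (q : Fin n → ℝ) (A : Matrix (Fin n) (Fin n) 𝕜) :
    re (trace (A * diagonal (fun i => (q i : 𝕜)) * Aᴴ)) = ∑ i, ∑ j, q j * ‖A i j‖ ^ 2 := by
  rw [Matrix.trace_mul_comm, trace_conjTranspose_mul, map_sum]
  refine Finset.sum_congr rfl fun i _ => ?_
  rw [map_sum]
  refine Finset.sum_congr rfl fun j _ => ?_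
  rw [mul_diagonal, ← mul_assoc, RCLike.conj_mul, mul_comm]
  norm_cast

lemma norm_sub_sq_re (a b : 𝕜) :
    ‖a - b‖ ^ 2 = ‖a‖ ^ 2 + ‖b‖ ^ 2 - 2 * re ((starRingEnd 𝕜) a * b) := by
  have := @norm_sub_sq 𝕜 𝕜 _ _ _ a b
  rw [this, RCLike.inner_apply, mul_comm b]
  ring

lemma fro_comm_single (Z : Matrix (Fin n) (Fin n) 𝕜) (i j : Fin n) :
    fro (Z * single i j 1 - single i j 1 * Z) =
      ∑ k, ‖Z k i‖ ^ 2 + ∑ k, ‖Z j k‖ ^ 2 - 2 * re ((starRingEnd 𝕜) (Z i i) * Z j j) := by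
  have hent : ∀ k l, ‖(Z * single i j (1 : 𝕜) - single i j (1 : 𝕜) * Z) k l‖ ^ 2 =
      (if l = j then ‖Z k i‖ ^ 2 else 0) + (if k = i then ‖Z j l‖ ^ 2 else 0) -
      (if l = j then (if k = i then 2 * re ((starRingEnd 𝕜) (Z k i) * Z j l) else 0) else 0) := by
    intro k l
    rw [Matrix.sub_apply]
    have e1 : (Z * single i j (1 : 𝕜)) k l = if l = j then Z k i else 0 := by
      split_ifs with h
      · subst h; simp
      · exact Matrix.mul_single_apply_of_ne _ _ _ _ _ (fun h' => h h') _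
    have e2 : (single i j (1 : 𝕜) * Z) k l = if k = i then Z j l else 0 := by
      split_ifs with h
      · subst h; simp
      · exact Matrix.single_mul_apply_of_ne _ _ _ _ _ (fun h' => h h') _
    rw [e1, e2]
    by_cases h1 : l = j <;> by_cases h2 : k = i <;> simp only [h1, h2, if_true, if_false]
    · rw [norm_sub_sq_re]
    · simp
    · simp
    · simp
  unfold fro
  simp_rw [hent]
  simp only [Finset.sum_sub_distrib, Finset.sum_add_distrib]
  have s1 : ∑ k, ∑ l, (if l = j then ‖Z k i‖ ^ 2 else 0) = ∑ k, ‖Z k i‖ ^ 2 := by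
    refine Finset.sum_congr rfl fun k _ => ?_
    simp
  have s2 : ∑ k, ∑ l, (if k = i then ‖Z j l‖ ^ 2 else 0) = ∑ l, ‖Z j l‖ ^ 2 := by
    rw [Finset.sum_comm]
    refine Finset.sum_congr rfl fun k _ => ?_
    simp
  have s3 : ∑ k, ∑ l, (if l = j then (if k = i then 2 * re ((starRingEnd 𝕜) (Z k i) * Z j l) else 0)
      else 0) = 2 * re ((starRingEnd 𝕜) (Z i i) * Z j j) := by
    simp
  rw [s1, s2, s3]

end Pool.Agent.Helper58.LW
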