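import Pool.Agent.Helper58.LW.MatDiag

set_option autoImplicit false

namespace Pool.Agent.Helper58.LW

open RCLike Matrix

variable {𝕜 : Type*} [RCLike 𝕜] {n : ℕ}

/-- the quadratic form -/
noncomputable def qf (ρ : Matrix (Fin n) (Fin n) 𝕜) (v : Fin n → 𝕜) : ℝ := re (star v ⬝ᵥ (ρ *ᵥ v))

/-- feasible matrices: `0 ≤ ρ ≤ 1`, trace `2` -/
def Feas (ρ : Matrix (Fin n) (Fin n) 𝕜) : Prop :=
  ρᴴ = ρ ∧ (∀ v : Fin n → 𝕜, 0 ≤ qf ρ v ∧ qf ρ v ≤ re (star v ⬝ᵥ v)) ∧ trace ρ = 2

lemma qf_add (A B : Matrix (Fin n) (Fin n) 𝕜) (v : Fin n → 𝕜) : qf (A + B) v = qf A v + qf B v := by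
  simp only [qf, add_mulVec, dotProduct_add, map_add]

lemma qf_smul (c : ℝ) (A : Matrix (Fin n) (Fin n) 𝕜) (v : Fin n → 𝕜) :
    qf ((c : 𝕜) • A) v = c * qf A v := by
  simp only [qf, smul_mulVec, dotProduct_smul, smul_eq_mul, RCLike.re_ofReal_mul]

lemma qf_continuous (v : Fin n → 𝕜) : Continuous fun ρ : Matrix (Fin n) (Fin n) 𝕜 => qf ρ v := by
  unfold qf
  refine RCLike.continuous_re.comp ?_
  simp only [dotProduct, mulVec]
  refine continuous_finsetSum _ fun i _ => ?_
  refine continuous_const.mul ?_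
  refine continuous_finsetSum _ fun j _ => ?_
  exact (continuous_apply_apply i j).mul continuous_const

lemma re_star_dot (v : Fin n → 𝕜) : re (star v ⬝ᵥ v) = ∑ i, ‖v i‖ ^ 2 := by
  simp only [dotProduct, map_sum, Pi.star_apply]
  refine Finset.sum_congr rfl fun i _ => ?_
  have : star (v i) * v i = ((‖v i‖ ^ 2 : ℝ) : 𝕜) := by
    have := RCLike.conj_mul (v i)
    push_cast
    exact this
  rw [this, RCLike.ofReal_re]

lemma qf_single (ρ : Matrix (Fin n) (Fin n) 𝕜) (i : Fin n) :
    qf ρ (Pi.single i 1) = re (ρ i i) := by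
  simp [qf]

lemma feas_diag {ρ : Matrix (Fin n) (Fin n) 𝕜} (h : Feas ρ) (i : Fin n) :
    0 ≤ re (ρ i i) ∧ re (ρ i i) ≤ 1 := by
  have h1 := h.2.1 (Pi.single i 1)
  rw [qf_single] at h1
  refine ⟨h1.1, h1.2.trans (le_of_eq ?_)⟩
  simp

lemma feas_entry {ρ : Matrix (Fin n) (Fin n) 𝕜} (h : Feas ρ) (i j : Fin n) : ‖ρ i j‖ ≤ 1 := by
  by_cases hij : i = j
  · subst hij
    have h1 := feas_diag h i
    have h2 : (starRingEnd 𝕜) (ρ i i) = ρ i i := by
      have := congrFun (congrFun h.1 i) i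
      rw [conjTranspose_apply] at this
      exact this
    have h3 : ρ i i = ((re (ρ i i) : ℝ) : 𝕜) := (RCLike.conj_eq_iff_re.1 h2).symm
    rw [h3, RCLike.norm_ofReal, abs_of_nonneg h1.1]
    exact h1.2
  · by_cases h0 : ρ i j = 0
    · rw [h0, norm_zero]; exact zero_le_one
    · -- unit scalar
      set ω : 𝕜 := (starRingEnd 𝕜) (ρ i j) / (‖ρ i j‖ : 𝕜) with hω
      have hn : (‖ρ i j‖ : 𝕜) ≠ 0 := by
        rw [Ne, RCLike.ofReal_eq_zero, norm_eq_zero]; exact h0
      have hω1 : ‖ω‖ = 1 := by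
        rw [hω, norm_div, RCLike.norm_conj, RCLike.norm_ofReal, abs_of_nonneg (norm_nonneg _),
          div_self (norm_ne_zero_iff.2 h0)]
      have hω2 : ρ i j * ω = (‖ρ i j‖ : 𝕜) := by
        rw [hω, mul_div_assoc', RCLike.mul_conj, div_eq_iff hn]
        ring
      have h1 := (h.2.1 (Pi.single i 1 + Pi.single j ω)).2
      have hherm : ρ j i = (starRingEnd 𝕜) (ρ i j) := by
        have := congrFun (congrFun h.1 j) i
        rw [conjTranspose_apply] at this
        exact this.symm
      have hqf : qf ρ (Pi.single i 1 + Pi.single j ω) =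
          re (ρ i i) + re (ρ j j) + 2 * ‖ρ i j‖ := by
        have hstar : star (Pi.single i (1 : 𝕜) + Pi.single j ω : Fin n → 𝕜) =
            Pi.single i 1 + Pi.single j (star ω) := by
          rw [star_add]
          congr 1
          · ext k; by_cases hk : k = i
            · subst hk; simp
            · simp [hk]
          · ext k; by_cases hk : k = j
            · subst hk; simp
            · simp [hk]
        unfold qf
        rw [hstar, add_dotProduct, single_dotProduct, single_dotProduct, mulVec_add]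
        simp only [Pi.add_apply, mulVec_single, one_mul, MulOpposite.op_one, one_smul, col_apply,
          Pi.smul_apply, MulOpposite.smul_eq_mul_unop, MulOpposite.unop_op]
        have e1 : star ω * (ρ j i + ρ j j * ω) = (‖ρ i j‖ : 𝕜) + ρ j j := by
          have e2 : star ω * ρ j i = (‖ρ i j‖ : 𝕜) := by
            rw [hherm]
            have := congrArg (starRingEnd 𝕜) hω2
            rw [map_mul, RCLike.conj_ofReal, mul_comm] at this
            exact this
          have e3 : star ω * (ρ j j * ω) = ρ j j := by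
            have e4 : star ω * ω = 1 := by
              have := RCLike.conj_mul ω
              rw [hω1] at this
              simpa using this
            calc star ω * (ρ j j * ω) = ρ j j * (star ω * ω) := by ring
              _ = _ := by rw [e4, mul_one]
          rw [mul_add, e2, e3]
        rw [e1, hω2]
        simp only [map_add, RCLike.ofReal_re]
        ring
      rw [hqf, re_star_dot] at h1
      have hsum : ∑ k, ‖(Pi.single i (1 : 𝕜) + Pi.single j ω : Fin n → 𝕜) k‖ ^ 2 = 2 := by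
        have hk : ∀ k, ‖(Pi.single i (1 : 𝕜) + Pi.single j ω : Fin n → 𝕜) k‖ ^ 2 =
            (if k = i then 1 else 0) + (if k = j then 1 else 0) := by
          intro k
          by_cases hk1 : k = i
          · rw [if_pos hk1, if_neg (by rw [hk1]; exact hij), hk1]
            simp [hij]
          · by_cases hk2 : k = j
            · rw [if_neg hk1, if_pos hk2, hk2, Pi.add_apply, Pi.single_eq_same,
                Pi.single_eq_of_ne (by rw [← hk2]; exact hk1), zero_add, hω1]
              norm_num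
            · simp [hk1, hk2]
        simp_rw [hk]
        rw [Finset.sum_add_distrib]
        simp
        norm_num
      rw [hsum] at h1
      have h2 := (feas_diag h i).1
      have h3 := (feas_diag h j).1
      linarith

lemma feas_compact : IsCompact {ρ : Matrix (Fin n) (Fin n) 𝕜 | Feas ρ} := by
  have hK : IsCompact (Set.pi Set.univ fun _ : Fin n => Set.pi Set.univ fun _ : Fin n =>
      Metric.closedBall (0 : 𝕜) 1) :=
    isCompact_univ_pi fun _ => isCompact_univ_pi fun _ => isCompact_closedBall 0 1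
  refine hK.of_isClosed_subset ?_ ?_
  · have : {ρ : Matrix (Fin n) (Fin n) 𝕜 | Feas ρ} = {ρ | ρᴴ = ρ} ∩
        ((⋂ v : Fin n → 𝕜, ({ρ | 0 ≤ qf ρ v} ∩ {ρ | qf ρ v ≤ re (star v ⬝ᵥ v)})) ∩
          {ρ | trace ρ = 2}) := by
      ext ρ
      simp [Feas]
    rw [this]
    refine IsClosed.inter ?_ (IsClosed.inter (isClosed_iInter fun v => IsClosed.inter ?_ ?_) ?_)
    · exact isClosed_eq (continuous_id.matrix_conjTranspose) continuous_id
    · exact isClosed_le continuous_const (qf_continuous v)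
    · exact isClosed_le (qf_continuous v) continuous_const
    · exact isClosed_eq (continuous_id.matrix_trace) continuous_const
  · intro ρ hρ
    rw [Set.mem_univ_pi]
    intro i
    rw [Set.mem_univ_pi]
    intro j
    rw [mem_closedBall_zero_iff]
    exact feas_entry hρ i j

lemma feas_convex {ρ ρ' : Matrix (Fin n) (Fin n) 𝕜} (h : Feas ρ) (h' : Feas ρ') (s : ℝ)
    (hs0 : 0 ≤ s) (hs1 : s ≤ 1) : Feas (((1 - s : ℝ) : 𝕜) • ρ + ((s : ℝ) : 𝕜) • ρ') := by
  refine ⟨?_, fun v => ?_, ?_⟩
  · rw [conjTranspose_add, conjTranspose_smul, conjTranspose_smul, h.1, h'.1]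
    congr 1
    · congr 1; exact RCLike.conj_ofReal _
    · congr 1; exact RCLike.conj_ofReal _
  · rw [qf_add, qf_smul, qf_smul]
    have h1 := h.2.1 v
    have h2 := h'.2.1 v
    have h3 : 0 ≤ 1 - s := by linarith
    constructor
    · exact add_nonneg (mul_nonneg h3 h1.1) (mul_nonneg hs0 h2.1)
    · have h4 := mul_le_mul_of_nonneg_left h1.2 h3
      have h5 := mul_le_mul_of_nonneg_left h2.2 hs0
      linarith
  · rw [trace_add, trace_smul, trace_smul, h.2.2, h'.2.2]
    simp only [smul_eq_mul]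
    push_cast
    ring

lemma feas_nonempty (hn : 2 ≤ n) :
    ∃ ρ : Matrix (Fin n) (Fin n) 𝕜, Feas ρ := by
  have hn0 : (0 : ℝ) < n := by
    have : 0 < n := by omega
    exact_mod_cast this
  refine ⟨((2 / n : ℝ) : 𝕜) • 1, ?_, fun v => ?_, ?_⟩
  · rw [conjTranspose_smul, conjTranspose_one]
    congr 1; exact RCLike.conj_ofReal _
  · rw [qf_smul]
    have h1 : qf (1 : Matrix (Fin n) (Fin n) 𝕜) v = re (star v ⬝ᵥ v) := by
      simp [qf]
    rw [h1, re_star_dot]
    have h2 : 0 ≤ ∑ i, ‖v i‖ ^ 2 := Finset.sum_nonneg fun i _ => by positivity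
    refine ⟨by positivity, ?_⟩
    have h3 : (2 / n : ℝ) ≤ 1 := by
      rw [div_le_one hn0]; exact_mod_cast hn
    calc _ ≤ 1 * ∑ i, ‖v i‖ ^ 2 := mul_le_mul_of_nonneg_right h3 h2
      _ = _ := one_mul _
  · rw [trace_smul, trace_one, Fintype.card_fin, smul_eq_mul]
    have h4 : (n : 𝕜) ≠ 0 := by
      have : n ≠ 0 := by omega
      exact_mod_cast this
    push_cast
    field_simp

/-- the functional -/
noncomputable def ff (Q0 X ρ : Matrix (Fin n) (Fin n) 𝕜) : ℝ :=
  re (trace (ρ * Q0)) - ‖trace (ρ * X)‖ ^ 2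

lemma ff_continuous (Q0 X : Matrix (Fin n) (Fin n) 𝕜) : Continuous (ff Q0 X) := by
  unfold ff
  refine Continuous.sub ?_ ?_
  · exact RCLike.continuous_re.comp ((continuous_id.matrix_mul continuous_const).matrix_trace)
  · exact (((continuous_id.matrix_mul continuous_const).matrix_trace).norm).pow 2

/-- maximiser and its first order condition -/
lemma exists_opt (hn : 2 ≤ n) (X : Matrix (Fin n) (Fin n) 𝕜) :
    ∃ (ρ : Matrix (Fin n) (Fin n) 𝕜) (lam : 𝕜), Feas ρ ∧ trace (ρ * (X - lam • (1 : Matrix (Fin n) (Fin n) 𝕜))) = 0 ∧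
      ∀ ρ', Feas ρ' →
        re (trace (ρ' * ((X - lam • (1 : Matrix (Fin n) (Fin n) 𝕜))ᴴ * (X - lam • (1 : Matrix (Fin n) (Fin n) 𝕜)) +
          (X - lam • (1 : Matrix (Fin n) (Fin n) 𝕜)) * (X - lam • (1 : Matrix (Fin n) (Fin n) 𝕜))ᴴ))) ≤
        re (trace (ρ * ((X - lam • (1 : Matrix (Fin n) (Fin n) 𝕜))ᴴ * (X - lam • (1 : Matrix (Fin n) (Fin n) 𝕜)) +
          (X - lam • (1 : Matrix (Fin n) (Fin n) 𝕜)) * (X - lam • (1 : Matrix (Fin n) (Fin n) 𝕜))ᴴ))) := by
  obtain ⟨ρ0, hρ0⟩ := feas_nonempty (𝕜 := 𝕜) hn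
  set Q0 := Xᴴ * X + X * Xᴴ with hQ0
  obtain ⟨ρ, hρ, hmax⟩ := feas_compact.exists_isMaxOn ⟨ρ0, hρ0⟩ (ff_continuous Q0 X).continuousOn
  have hρ' : Feas ρ := hρ
  refine ⟨ρ, trace (ρ * X) / 2, hρ', ?_, ?_⟩
  · rw [mul_sub, trace_sub, mul_smul_comm, mul_one, trace_smul, hρ'.2.2, smul_eq_mul]
    ring
  · intro ρ' h'
    set lam := trace (ρ * X) / 2 with hlam
    have hQ : (X - lam • (1 : Matrix (Fin n) (Fin n) 𝕜))ᴴ * (X - lam • (1 : Matrix (Fin n) (Fin n) 𝕜)) +
        (X - lam • (1 : Matrix (Fin n) (Fin n) 𝕜)) * (X - lam • (1 : Matrix (Fin n) (Fin n) 𝕜))ᴴ =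
        Q0 - (2 * lam) • Xᴴ - (2 * star lam) • X + (2 * (star lam * lam)) • (1 : Matrix (Fin n) (Fin n) 𝕜) := by
      rw [hQ0, conjTranspose_sub, conjTranspose_smul, conjTranspose_one]
      simp only [sub_mul, mul_sub, smul_mul_assoc, mul_smul_comm, one_mul, mul_one]
      module
    have htr : ∀ σ : Matrix (Fin n) (Fin n) 𝕜, Feas σ →
        re (trace (σ * (Q0 - (2 * lam) • Xᴴ - (2 * star lam) • X +
          (2 * (star lam * lam)) • (1 : Matrix (Fin n) (Fin n) 𝕜)))) =
        re (trace (σ * Q0)) - 4 * re (star lam * trace (σ * X)) + 4 * ‖lam‖ ^ 2 := by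
      intro σ hσ
      have h1 : trace (σ * Xᴴ) = star (trace (σ * X)) := by
        rw [← trace_conjTranspose, conjTranspose_mul, hσ.1, Matrix.trace_mul_comm]
      have h2 : re (lam * trace (σ * Xᴴ)) = re (star lam * trace (σ * X)) := by
        rw [h1]
        have : lam * star (trace (σ * X)) = (starRingEnd 𝕜) (star lam * trace (σ * X)) := by
          rw [map_mul]
          congr 1
          exact (star_star lam).symm
        rw [this, RCLike.conj_re]
      have h3 : star lam * lam = ((‖lam‖ ^ 2 : ℝ) : 𝕜) := by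
        have := RCLike.conj_mul lam
        push_cast
        exact this
      rw [mul_add, mul_sub, mul_sub, trace_add, trace_sub, trace_sub, mul_smul_comm, mul_smul_comm,
        mul_smul_comm, trace_smul, trace_smul, trace_smul, mul_one, hσ.2.2, h3]
      simp only [smul_eq_mul, map_add, map_sub]
      have e1 : re (2 * lam * trace (σ * Xᴴ)) = 2 * re (lam * trace (σ * Xᴴ)) := by
        have : (2 : 𝕜) * lam * trace (σ * Xᴴ) = ((2 : ℝ) : 𝕜) * (lam * trace (σ * Xᴴ)) := by
          push_cast; ring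
        rw [this, RCLike.re_ofReal_mul]
      have e2 : re (2 * star lam * trace (σ * X)) = 2 * re (star lam * trace (σ * X)) := by
        have : (2 : 𝕜) * star lam * trace (σ * X) = ((2 : ℝ) : 𝕜) * (star lam * trace (σ * X)) := by
          push_cast; ring
        rw [this, RCLike.re_ofReal_mul]
      have e3 : re ((2 : 𝕜) * ((‖lam‖ ^ 2 : ℝ) : 𝕜) * 2) = 4 * ‖lam‖ ^ 2 := by
        have : (2 : 𝕜) * ((‖lam‖ ^ 2 : ℝ) : 𝕜) * 2 = ((4 * ‖lam‖ ^ 2 : ℝ) : 𝕜) := by
          push_cast; ring
        rw [this, RCLike.ofReal_re]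
      rw [e1, e2, e3, h2]
      ring
    rw [hQ, htr ρ' h', htr ρ hρ']
    -- first order condition
    set a := trace (ρ * X) with ha
    set c := trace (ρ' * X) with hc
    set β := re (trace (ρ' * Q0)) with hβ
    set β0 := re (trace (ρ * Q0)) with hβ0
    have hs : ∀ s : ℝ, 0 < s → s ≤ 1 →
        β - β0 - 2 * re (star a * (c - a)) ≤ s * ‖c - a‖ ^ 2 := by
      intro s hs0 hs1
      have h1 := hmax (feas_convex hρ' h' s hs0.le hs1)
      simp only [Set.mem_ofPred_eq, ff] at h1
      rw [add_mul, add_mul, smul_mul_assoc, smul_mul_assoc, smul_mul_assoc, smul_mul_assoc,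
        trace_add, trace_add, trace_smul, trace_smul, trace_smul, trace_smul] at h1
      simp only [smul_eq_mul, map_add, RCLike.re_ofReal_mul] at h1
      rw [← ha, ← hc, ← hβ, ← hβ0] at h1
      have h2 : (((1 - s : ℝ) : 𝕜)) * a + (s : 𝕜) * c = a + (s : 𝕜) * (c - a) := by
        push_cast; ring
      rw [h2] at h1
      have h3 : ‖a + (s : 𝕜) * (c - a)‖ ^ 2 = ‖a‖ ^ 2 + 2 * s * re (star a * (c - a)) +
          s ^ 2 * ‖c - a‖ ^ 2 := by
        have := @norm_add_sq 𝕜 𝕜 _ _ _ a ((s : 𝕜) * (c - a))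
        rw [this, RCLike.inner_apply, norm_mul, RCLike.norm_ofReal, abs_of_pos hs0]
        have e1 : (s : 𝕜) * (c - a) * (starRingEnd 𝕜) a = (s : 𝕜) * (star a * (c - a)) := by
          change (s : 𝕜) * (c - a) * star a = _
          ring
        rw [e1, RCLike.re_ofReal_mul]
        ring
      rw [h3] at h1
      have h4 : s * (β - β0 - 2 * re (star a * (c - a))) ≤ s * (s * ‖c - a‖ ^ 2) := by nlinarith
      exact le_of_mul_le_mul_left h4 hs0
    have hfin : β - β0 - 2 * re (star a * (c - a)) ≤ 0 := by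
      by_contra hcon
      push Not at hcon
      set y := β - β0 - 2 * re (star a * (c - a)) with hy
      have hN : 0 ≤ ‖c - a‖ ^ 2 := by positivity
      have h1 := hs (min 1 (y / (2 * (‖c - a‖ ^ 2 + 1)))) (lt_min one_pos (by positivity))
        (min_le_left _ _)
      have h2 : min 1 (y / (2 * (‖c - a‖ ^ 2 + 1))) * ‖c - a‖ ^ 2 ≤
          y / (2 * (‖c - a‖ ^ 2 + 1)) * ‖c - a‖ ^ 2 :=
        mul_le_mul_of_nonneg_right (min_le_right _ _) hN
      have h3 : y / (2 * (‖c - a‖ ^ 2 + 1)) * ‖c - a‖ ^ 2 < y := by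
        rw [div_mul_eq_mul_div, div_lt_iff₀ (by positivity)]
        nlinarith
      linarith
    have hlam2 : star lam = star a / 2 := by
      rw [hlam, star_div₀]
      congr 1
      exact map_ofNat (starRingEnd 𝕜) 2
    have e4 : re (star lam * c) - re (star lam * a) = re (star a * (c - a)) / 2 := by
      rw [← map_sub, ← mul_sub, hlam2]
      have : star a / 2 * (c - a) = ((1 / 2 : ℝ) : 𝕜) * (star a * (c - a)) := by
        push_cast; ring
      rw [this, RCLike.re_ofReal_mul]
      ring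
    linarith

end Pool.Agent.Helper58.LW
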