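import Mathlib

set_option autoImplicit false

namespace Pool.Agent.Helper58.LW

variable {ι : Type*} {E : Type*} [NormedAddCommGroup E] [InnerProductSpace ℝ E]

/-- one elimination step for the kernel `1/(q_i+q_j)` -/
lemma cauchy_step (s : Finset ι) (c : ι → E) (q : ι → ℝ) (m : ℝ) (hm : 0 < m)
    (hq : ∀ i ∈ s, 0 < q i) :
    ∑ i ∈ s, ∑ j ∈ s, inner ℝ (c i) (c j) / (q i + q j) =
      2 * m * ‖∑ i ∈ s, (m + q i)⁻¹ • c i‖ ^ 2 +
      ∑ i ∈ s, ∑ j ∈ s, inner ℝ (((m - q i) / (m + q i)) • c i) (((m - q j) / (m + q j)) • c j)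
        / (q i + q j) := by
  rw [← real_inner_self_eq_norm_sq, sum_inner, Finset.mul_sum, ← Finset.sum_add_distrib]
  refine Finset.sum_congr rfl fun i hi => ?_
  rw [inner_sum, Finset.mul_sum, ← Finset.sum_add_distrib]
  refine Finset.sum_congr rfl fun j hj => ?_
  rw [real_inner_smul_left, real_inner_smul_right, real_inner_smul_left, real_inner_smul_right]
  have h1 := hq i hi
  have h2 := hq j hj
  have h3 : m + q i ≠ 0 := by positivity
  have h4 : m + q j ≠ 0 := by positivity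
  have h5 : q i + q j ≠ 0 := by positivity
  field_simp
  ring

lemma cauchy_nonneg [DecidableEq ι] (q : ι → ℝ) : ∀ (k : ℕ) (s : Finset ι), s.card = k →
    ∀ (c : ι → E), (∀ i ∈ s, 0 < q i) →
    0 ≤ ∑ i ∈ s, ∑ j ∈ s, inner ℝ (c i) (c j) / (q i + q j) := by
  intro k
  induction k with
  | zero =>
    intro s hs c _
    rw [Finset.card_eq_zero] at hs
    simp [hs]
  | succ k ih =>
    intro s hs c hq
    obtain ⟨a, ha⟩ : s.Nonempty := by
      rw [← Finset.card_pos]; omega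
    have hqa := hq a ha
    rw [cauchy_step s c q (q a) hqa hq]
    have h0 : ((q a - q a) / (q a + q a)) • c a = 0 := by simp
    have key : ∑ i ∈ s, ∑ j ∈ s, inner ℝ (((q a - q i) / (q a + q i)) • c i)
        (((q a - q j) / (q a + q j)) • c j) / (q i + q j) =
        ∑ i ∈ s.erase a, ∑ j ∈ s.erase a, inner ℝ (((q a - q i) / (q a + q i)) • c i)
        (((q a - q j) / (q a + q j)) • c j) / (q i + q j) := by
      rw [← Finset.add_sum_erase s _ ha]
      have : ∑ j ∈ s, inner ℝ (((q a - q a) / (q a + q a)) • c a)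
        (((q a - q j) / (q a + q j)) • c j) / (q a + q j) = 0 := by
        apply Finset.sum_eq_zero
        intro j _
        rw [h0, inner_zero_left, zero_div]
      rw [this, zero_add]
      refine Finset.sum_congr rfl fun i _ => ?_
      rw [← Finset.add_sum_erase s _ ha, h0, inner_zero_right, zero_div, zero_add]
    rw [key]
    have h1 := ih (s.erase a) (by rw [Finset.card_erase_of_mem ha]; omega)
      (fun i => ((q a - q i) / (q a + q i)) • c i)
      (fun i hi => hq i (Finset.mem_of_mem_erase hi))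
    have h2 : 0 ≤ 2 * q a * ‖∑ i ∈ s, (q a + q i)⁻¹ • c i‖ ^ 2 := by positivity
    linarith

/-- lower bound for the Cauchy kernel by evaluation at `m` -/
lemma cauchy_lower [Fintype ι] [DecidableEq ι] (c : ι → E) (q : ι → ℝ) (m : ℝ) (hm : 0 < m)
    (hq : ∀ i, c i = 0 ∨ 0 < q i) :
    2 * m * ‖∑ i, (m + q i)⁻¹ • c i‖ ^ 2 ≤ ∑ i, ∑ j, inner ℝ (c i) (c j) / (q i + q j) := by
  classical
  set q' : ι → ℝ := fun i => if 0 < q i then q i else 1 with hq'
  have hpos : ∀ i, 0 < q' i := by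
    intro i
    simp only [hq']
    split_ifs with h
    · exact h
    · exact one_pos
  have e1 : ∑ i, ∑ j, inner ℝ (c i) (c j) / (q i + q j) =
      ∑ i, ∑ j, inner ℝ (c i) (c j) / (q' i + q' j) := by
    refine Finset.sum_congr rfl fun i _ => Finset.sum_congr rfl fun j _ => ?_
    rcases hq i with h | h
    · rw [h]; simp
    · rcases hq j with h' | h'
      · rw [h']; simp
      · simp [hq', h, h']
  have e2 : ∑ i, (m + q i)⁻¹ • c i = ∑ i, (m + q' i)⁻¹ • c i := by
    refine Finset.sum_congr rfl fun i _ => ?_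
    rcases hq i with h | h
    · rw [h]; simp
    · simp [hq', h]
  rw [e1, e2, cauchy_step Finset.univ c q' m hm (fun i _ => hpos i)]
  have := cauchy_nonneg (E := E) q' _ Finset.univ rfl
    (fun i => ((m - q' i) / (m + q' i)) • c i) (fun i _ => hpos i)
  linarith

/-- the key one-variable inequality -/
lemma J_ineq (b g t tp q1 u d ν q : ℝ) (hb : 0 < b) (hgb : b ≤ g) (htp : tp = b * g)
    (hq1 : q1 = 1 - tp) (ht : t = 1 - 2 * tp) (ht0 : 0 < t) (hd : 0 ≤ d)
    (hq : q = u ^ 2 + 2 * d) (hqle : q ≤ q1) (hqge : tp ≤ q) (hν : ν ≤ b * u) :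
    (tp - b ^ 2) * ((q - tp) * (q1 - 2 * g ^ 2 * ν / (g ^ 2 + q))) ≤
      t * tp * (u ^ 2 - 2 * ν + b ^ 2) +
        (tp - b ^ 2) * (2 * t * (g ^ 2 + 1) / (g ^ 2 + q1)) * d := by
  have hg : 0 < g := lt_of_lt_of_le hb hgb
  have htp0 : 0 < tp := by rw [htp]; positivity
  have hq0 : 0 < q := lt_of_lt_of_le htp0 hqge
  have hP : 0 < g ^ 2 + q := by positivity
  have hP1 : 0 < g ^ 2 + q1 := by have : 0 < q1 := lt_of_lt_of_le hq0 hqle; positivity
  have htb : 0 ≤ tp - b ^ 2 := by rw [htp]; nlinarith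
  obtain ⟨A, hA⟩ : ∃ A, A = (q - tp) / (g ^ 2 + q) := ⟨_, rfl⟩
  obtain ⟨K, hK⟩ : ∃ K, K = t / (g ^ 2 + q1) := ⟨_, rfl⟩
  have hA' : A * (g ^ 2 + q) = q - tp := by rw [hA]; field_simp
  have hK' : K * (g ^ 2 + q1) = t := by rw [hK]; field_simp
  have hA0 : 0 ≤ A := by rw [hA]; apply div_nonneg (by linarith) hP.le
  have e1 : (q - tp) * (q1 - 2 * g ^ 2 * ν / (g ^ 2 + q)) = (q - tp) * q1 - 2 * g ^ 2 * ν * A := by
    rw [hA]; ring
  have e2 : 2 * t * (g ^ 2 + 1) / (g ^ 2 + q1) = 2 * K * (g ^ 2 + 1) := by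
    rw [hK]; ring
  rw [e1, e2]
  -- A ≤ K
  have hAK : A ≤ K := by
    rw [hA, hK, div_le_div_iff₀ hP hP1]
    have : t * (g ^ 2 + q) - (q - tp) * (g ^ 2 + q1) = (g ^ 2 + tp) * (q1 - q) := by
      rw [ht, hq1]; ring
    have h2 : 0 ≤ (g ^ 2 + tp) * (q1 - q) := by
      apply mul_nonneg (by positivity) (by linarith)
    linarith
  -- g^2 * A ≤ t
  have hgA : g ^ 2 * A ≤ t := by
    have h1 : q - tp ≤ t := by rw [ht]; linarith [hqle, hq1]
    have h2 : g ^ 2 * A ≤ A * (g ^ 2 + q) := by nlinarith [mul_nonneg hA0 hq0.le]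
    linarith
  -- monotonicity
  have hmono : 0 ≤ (ν - b * u) * (-2 * t * tp + 2 * g ^ 2 * (tp - b ^ 2) * A) := by
    apply mul_nonneg_of_nonpos_of_nonpos (by linarith)
    have h1 : (tp - b ^ 2) * (g ^ 2 * A) ≤ (tp - b ^ 2) * t := mul_le_mul_of_nonneg_left hgA htb
    nlinarith [mul_nonneg ht0.le (sq_nonneg b)]
  -- identity
  have hid : t * tp * (u - b) ^ 2 + (tp - b ^ 2) * (2 * K * (g ^ 2 + 1) * d - (q - tp) * q1
      + 2 * g ^ 2 * (b * u) * A) =
      b * (g - b) * tp * (2 * d * (K - A) - A * (g - u) ^ 2) + t * b ^ 2 * (g - u) ^ 2 := by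
    subst hq
    subst hq1
    subst ht
    subst htp
    linear_combination (b * g - b ^ 2) * (2 * d) * hK' + (b * g - b ^ 2) * (b * g) * hA'
  have h3 : 0 ≤ b * (g - b) * tp * (2 * d * (K - A)) := by
    apply mul_nonneg
    · apply mul_nonneg (mul_nonneg hb.le (by linarith)) htp0.le
    · apply mul_nonneg (by linarith) (by linarith)
  have h4 : 0 ≤ b * (g - u) ^ 2 * (t * b - (g - b) * tp * A) := by
    apply mul_nonneg (by positivity)
    have h5 : (g - b) * tp * A = b * ((g - b) * g * A) := by rw [htp]; ring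
    have h6 : (g - b) * g * A ≤ g ^ 2 * A := by nlinarith [mul_nonneg (mul_nonneg hb.le hg.le) hA0]
    have h7 : b * ((g - b) * g * A) ≤ b * t := mul_le_mul_of_nonneg_left (by linarith) hb.le
    linarith
  nlinarith [hid, hmono, h3, h4]

end Pool.Agent.Helper58.LW
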