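import Pool.Agent.Helper58.LW.Scalar1

set_option autoImplicit false

namespace Pool.Agent.Helper58.LW

variable {ι : Type*} [Fintype ι] [DecidableEq ι]
variable {E : Type*} [NormedAddCommGroup E] [InnerProductSpace ℝ E]

/-- structure of the weights -/
lemma p_struct (p q : ι → ℝ) (hp0 : ∀ i, 0 ≤ p i) (hp1 : ∀ i, p i ≤ 1) (hp2 : ∑ i, p i = 2)
    (hmax : ∀ i j, i ≠ j → q i + q j ≤ ∑ k, p k * q k) (i0 : ι) (hi0 : ∀ i, q i ≤ q i0) :
    0 ≤ 2 * q i0 - ∑ k, p k * q k ∧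
    ((2 * q i0 - ∑ k, p k * q k = 0 ∧ ∀ i, p i * (q i0 - q i) = 0) ∨
     (0 < 2 * q i0 - ∑ k, p k * q k ∧ p i0 = 1 ∧
      (∀ i, i ≠ i0 → q i ≤ q i0 - (2 * q i0 - ∑ k, p k * q k)) ∧
      (∀ i, i ≠ i0 → p i * (q i0 - (2 * q i0 - ∑ k, p k * q k) - q i) = 0))) := by
  set S := ∑ k, p k * q k with hS
  have hsum : ∑ i, p i * (q i0 - q i) = 2 * q i0 - S := by
    simp only [mul_sub, Finset.sum_sub_distrib]
    rw [← Finset.sum_mul, hp2, hS]
  have hnn : ∀ i ∈ Finset.univ, 0 ≤ p i * (q i0 - q i) := fun i _ =>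
    mul_nonneg (hp0 i) (by linarith [hi0 i])
  have hδ : 0 ≤ 2 * q i0 - S := by
    rw [← hsum]; exact Finset.sum_nonneg hnn
  refine ⟨hδ, ?_⟩
  rcases hδ.eq_or_lt with h | h
  · left
    refine ⟨h.symm, fun i => ?_⟩
    rw [← h] at hsum
    exact (Finset.sum_eq_zero_iff_of_nonneg hnn).1 hsum i (Finset.mem_univ i)
  · right
    have hj : ∀ i, i ≠ i0 → q i ≤ q i0 - (2 * q i0 - S) := by
      intro i hi
      have := hmax i i0 hi
      linarith
    have hsplit : p i0 * (q i0 - (2 * q i0 - S) - q i0) +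
        ∑ i ∈ Finset.univ.erase i0, p i * (q i0 - (2 * q i0 - S) - q i) =
        ∑ i, p i * (q i0 - (2 * q i0 - S) - q i) :=
      Finset.add_sum_erase Finset.univ (fun i => p i * (q i0 - (2 * q i0 - S) - q i))
        (Finset.mem_univ i0)
    have htot : ∑ i, p i * (q i0 - (2 * q i0 - S) - q i) = 2 * (q i0 - (2 * q i0 - S)) - S := by
      simp only [mul_sub, Finset.sum_sub_distrib]
      simp only [← Finset.sum_mul, hp2]
      rw [← hS]
    have hnn2 : ∀ i ∈ Finset.univ.erase i0, 0 ≤ p i * (q i0 - (2 * q i0 - S) - q i) := by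
      intro i hi
      exact mul_nonneg (hp0 i) (by linarith [hj i (Finset.ne_of_mem_erase hi)])
    have hpos := Finset.sum_nonneg hnn2
    have h1 : p i0 = 1 := by
      have h2 : (1 - p i0) * (2 * q i0 - S) ≤ 0 := by nlinarith
      have h3 : 1 - p i0 ≤ 0 := by
        by_contra hcon
        push Not at hcon
        have := mul_pos hcon h
        linarith
      linarith [hp1 i0]
    refine ⟨h, h1, hj, fun i hi => ?_⟩
    have h0 : ∑ i ∈ Finset.univ.erase i0, p i * (q i0 - (2 * q i0 - S) - q i) = 0 := by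
      rw [htot, h1] at hsplit
      linarith
    exact (Finset.sum_eq_zero_iff_of_nonneg hnn2).1 h0 i
      (Finset.mem_erase.2 ⟨hi, Finset.mem_univ i⟩)

omit [DecidableEq ι] in
/-- identity (A) -/
lemma A_id (x : ι → E) (lam : E) (d p q : ι → ℝ)
    (hq : ∀ i, q i = 2 * ‖x i‖ ^ 2 + 2 * d i)
    (hw : ∑ i, (‖x i + lam‖ ^ 2 + d i) = 1)
    (hp2 : ∑ i, p i = 2) (hpx : ∑ i, p i • x i = 0) :
    ∑ i, (1 - p i) * (‖x i + lam‖ ^ 2 + d i) =
      1 - (∑ k, p k * q k) / 2 - 2 * ‖lam‖ ^ 2 := by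
  have h1 : ∀ i, ‖x i + lam‖ ^ 2 + d i = q i / 2 + 2 * inner ℝ (x i) lam + ‖lam‖ ^ 2 := by
    intro i
    rw [norm_add_sq_real, hq i]; ring
  have h2 : ∑ i, p i * (‖x i + lam‖ ^ 2 + d i) =
      (∑ k, p k * q k) / 2 + 2 * ‖lam‖ ^ 2 := by
    have h3 : ∑ i, p i * inner ℝ (x i) lam = 0 := by
      have : inner ℝ (∑ i, p i • x i) lam = ∑ i, p i * inner ℝ (x i) lam := by
        rw [sum_inner]
        exact Finset.sum_congr rfl fun i _ => by rw [real_inner_smul_left]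
      rw [← this, hpx, inner_zero_left]
    calc ∑ i, p i * (‖x i + lam‖ ^ 2 + d i)
        = ∑ i, (p i * q i / 2 + 2 * (p i * inner ℝ (x i) lam) + p i * ‖lam‖ ^ 2) := by
          refine Finset.sum_congr rfl fun i _ => ?_
          rw [h1 i]; ring
      _ = (∑ k, p k * q k) / 2 + 2 * ‖lam‖ ^ 2 := by
          rw [Finset.sum_add_distrib, Finset.sum_add_distrib, ← Finset.mul_sum, h3,
            ← Finset.sum_mul, hp2, Finset.sum_div]
          ring
  simp only [sub_mul, one_mul, Finset.sum_sub_distrib]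
  rw [hw, h2]; ring

/-- inequality (B) -/
lemma B_ineq (x : ι → E) (d p q : ι → ℝ) (hd : ∀ i, 0 ≤ d i) (hbal : ∀ i, 2 * d i ≤ ∑ j, d j)
    (hq : ∀ i, q i = 2 * ‖x i‖ ^ 2 + 2 * d i)
    (hp0 : ∀ i, 0 ≤ p i) (hp1 : ∀ i, p i ≤ 1) (hp2 : ∑ i, p i = 2)
    (hpx : ∑ i, p i • x i = 0)
    (hmax : ∀ i j, i ≠ j → q i + q j ≤ ∑ k, p k * q k) (i0 : ι) (hi0 : ∀ i, q i ≤ q i0) :
    (2 * q i0 - ∑ k, p k * q k) / 2 ≤ ∑ i, (1 - p i) * d i ∧
    (0 < 2 * q i0 - ∑ k, p k * q k →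
      2 * ‖x i0‖ ^ 2 ≤ q i0 - (2 * q i0 - ∑ k, p k * q k)) := by
  have hst := (p_struct p q hp0 hp1 hp2 hmax i0 hi0).2
  set δ := 2 * q i0 - ∑ k, p k * q k with hδ
  rcases hst with ⟨h0, _⟩ | ⟨hpos, hp10, _, hz⟩
  · refine ⟨?_, fun h => absurd h (by rw [h0]; exact lt_irrefl 0)⟩
    rw [h0, zero_div]
    exact Finset.sum_nonneg fun i _ => mul_nonneg (by linarith [hp1 i]) (hd i)
  · -- the sums over i ≠ i0
    have hperase : ∑ i ∈ Finset.univ.erase i0, p i = 1 := by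
      have := Finset.add_sum_erase Finset.univ p (Finset.mem_univ i0)
      rw [hp2, hp10] at this
      linarith
    have hxerase : x i0 = - ∑ i ∈ Finset.univ.erase i0, p i • x i := by
      have := Finset.add_sum_erase Finset.univ (fun i => p i • x i) (Finset.mem_univ i0)
      simp only [hpx, hp10, one_smul] at this
      exact eq_neg_of_add_eq_zero_left this
    have hxsq : ‖x i0‖ ^ 2 ≤ ∑ i ∈ Finset.univ.erase i0, p i * ‖x i‖ ^ 2 := by
      have h1 : ‖x i0‖ ≤ ∑ i ∈ Finset.univ.erase i0, p i * ‖x i‖ := by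
        rw [hxerase, norm_neg]
        refine (norm_sum_le _ _).trans (le_of_eq ?_)
        refine Finset.sum_congr rfl fun i _ => ?_
        rw [norm_smul, Real.norm_eq_abs, abs_of_nonneg (hp0 i)]
      have h2 : (∑ i ∈ Finset.univ.erase i0, p i * ‖x i‖) ^ 2 ≤
          (∑ i ∈ Finset.univ.erase i0, p i) * ∑ i ∈ Finset.univ.erase i0, p i * ‖x i‖ ^ 2 := by
        have := Finset.sum_sq_le_sum_mul_sum_of_sq_le_mul (Finset.univ.erase i0)
          (r := fun i => p i * ‖x i‖) (f := p) (g := fun i => p i * ‖x i‖ ^ 2)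
          (fun i _ => hp0 i) (fun i _ => mul_nonneg (hp0 i) (by positivity))
          (fun i _ => le_of_eq (by ring))
        exact this
      rw [hperase, one_mul] at h2
      calc ‖x i0‖ ^ 2 ≤ (∑ i ∈ Finset.univ.erase i0, p i * ‖x i‖) ^ 2 :=
            pow_le_pow_left₀ (norm_nonneg _) h1 2
        _ ≤ _ := h2
    have hq2 : q i0 - δ = ∑ i ∈ Finset.univ.erase i0, p i * q i := by
      have : ∑ i ∈ Finset.univ.erase i0, p i * (q i0 - δ - q i) = 0 :=
        Finset.sum_eq_zero fun i hi => hz i (Finset.ne_of_mem_erase hi)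
      simp only [mul_sub, Finset.sum_sub_distrib] at this
      simp only [← Finset.sum_mul, hperase] at this
      linarith
    have hq2' : ∑ i ∈ Finset.univ.erase i0, p i * q i =
        2 * ∑ i ∈ Finset.univ.erase i0, p i * ‖x i‖ ^ 2 +
        2 * ∑ i ∈ Finset.univ.erase i0, p i * d i := by
      rw [Finset.mul_sum, Finset.mul_sum, ← Finset.sum_add_distrib]
      refine Finset.sum_congr rfl fun i _ => ?_
      rw [hq i]; ring
    have hpd : 0 ≤ ∑ i ∈ Finset.univ.erase i0, p i * d i :=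
      Finset.sum_nonneg fun i _ => mul_nonneg (hp0 i) (hd i)
    refine ⟨?_, fun _ => by linarith⟩
    have h5 : ∑ i, (1 - p i) * d i = ∑ i ∈ Finset.univ.erase i0, d i -
        ∑ i ∈ Finset.univ.erase i0, p i * d i := by
      rw [← Finset.add_sum_erase Finset.univ _ (Finset.mem_univ i0), hp10, sub_self, zero_mul,
        zero_add, ← Finset.sum_sub_distrib]
      exact Finset.sum_congr rfl fun i _ => by ring
    have h6 : d i0 ≤ ∑ i ∈ Finset.univ.erase i0, d i := by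
      have := Finset.add_sum_erase Finset.univ d (Finset.mem_univ i0)
      linarith [hbal i0]
    rw [h5]
    have h7 := hq i0
    linarith

/-- top part of the sum -/
lemma T_ineq (x : ι → E) (lam : E) (p q : ι → ℝ) (b g tp t : ℝ)
    (hp0 : ∀ i, 0 ≤ p i) (hp1 : ∀ i, p i ≤ 1) (hp2 : ∑ i, p i = 2)
    (hpx : ∑ i, p i • x i = 0)
    (hmax : ∀ i j, i ≠ j → q i + q j ≤ ∑ k, p k * q k) (i0 : ι) (hi0 : ∀ i, q i ≤ q i0)
    (hx0 : 0 < 2 * q i0 - ∑ k, p k * q k →
      2 * ‖x i0‖ ^ 2 ≤ q i0 - (2 * q i0 - ∑ k, p k * q k))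
    (hb : 0 < b) (hgb : b ≤ g) (htp : tp = b * g) (hb2 : b ^ 2 = 2 * ‖lam‖ ^ 2)
    (hq1 : q i0 = 1 - tp) (ht : t = 1 - 2 * tp) (ht0 : 0 < t)
    (hδt : 2 * q i0 - ∑ k, p k * q k ≤ t) :
    ∑ i, p i * (max (q i - tp) 0 * (q i0 + 4 * g ^ 2 * inner ℝ (x i) lam / (g ^ 2 + q i))) ≤
      (2 * t - (2 * q i0 - ∑ k, p k * q k)) * q i0 +
        tp * (2 * q i0 - ∑ k, p k * q k) * (g ^ 2 + tp) / (g ^ 2 + q i0) := by
  have hg : 0 < g := lt_of_lt_of_le hb hgb
  have htp0 : 0 < tp := by rw [htp]; positivity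
  have hst := (p_struct p q hp0 hp1 hp2 hmax i0 hi0).2
  set δ := 2 * q i0 - ∑ k, p k * q k with hδ
  have hq10 : 0 < q i0 := by rw [hq1]; linarith
  have hP1 : 0 < g ^ 2 + q i0 := by positivity
  have hmax1 : max (q i0 - tp) 0 = t := by rw [hq1, ht, max_eq_left] <;> linarith
  have hsumin : ∑ i, p i * inner ℝ (x i) lam = 0 := by
    have : inner ℝ (∑ i, p i • x i) lam = ∑ i, p i * inner ℝ (x i) lam := by
      rw [sum_inner]
      exact Finset.sum_congr rfl fun i _ => by rw [real_inner_smul_left]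
    rw [← this, hpx, inner_zero_left]
  rcases hst with ⟨h0, hz⟩ | ⟨hpos, hp10, _, hz⟩
  · -- δ = 0
    have hterm : ∀ i, p i * (max (q i - tp) 0 *
        (q i0 + 4 * g ^ 2 * inner ℝ (x i) lam / (g ^ 2 + q i))) =
        p i * (t * q i0) + (p i * inner ℝ (x i) lam) * (4 * g ^ 2 * t / (g ^ 2 + q i0)) := by
      intro i
      rcases mul_eq_zero.1 (hz i) with h | h
      · rw [h]; ring
      · have : q i = q i0 := by linarith
        rw [this, hmax1]; ring
    rw [Finset.sum_congr rfl fun i _ => hterm i, Finset.sum_add_distrib, ← Finset.sum_mul,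
      ← Finset.sum_mul, hp2, hsumin, h0]
    simp
    ring_nf
    exact le_refl _
  · -- δ > 0
    have hx0' := hx0 hpos
    have hq2pos : 0 < q i0 - δ := by rw [hq1]; linarith
    have hP2 : 0 < g ^ 2 + (q i0 - δ) := by positivity
    have hmax2 : max (q i0 - δ - tp) 0 = t - δ := by
      rw [hq1, ht, max_eq_left] <;> linarith
    have hperase : ∑ i ∈ Finset.univ.erase i0, p i = 1 := by
      have := Finset.add_sum_erase Finset.univ p (Finset.mem_univ i0)
      rw [hp2, hp10] at this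
      linarith
    have hinerase : ∑ i ∈ Finset.univ.erase i0, p i * inner ℝ (x i) lam = - inner ℝ (x i0) lam := by
      have := Finset.add_sum_erase Finset.univ (fun i => p i * inner ℝ (x i) lam)
        (Finset.mem_univ i0)
      simp only [hsumin, hp10, one_mul] at this
      linarith
    have hterm : ∀ i ∈ Finset.univ.erase i0, p i * (max (q i - tp) 0 *
        (q i0 + 4 * g ^ 2 * inner ℝ (x i) lam / (g ^ 2 + q i))) =
        p i * ((t - δ) * q i0) +
        (p i * inner ℝ (x i) lam) * (4 * g ^ 2 * (t - δ) / (g ^ 2 + (q i0 - δ))) := by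
      intro i hi
      rcases mul_eq_zero.1 (hz i (Finset.ne_of_mem_erase hi)) with h | h
      · rw [h]; ring
      · have : q i = q i0 - δ := by linarith
        rw [this, hmax2]; ring
    rw [← Finset.add_sum_erase Finset.univ _ (Finset.mem_univ i0),
      Finset.sum_congr rfl hterm, Finset.sum_add_distrib, ← Finset.sum_mul,
      ← Finset.sum_mul, hperase, hinerase, hp10, hmax1]
    -- scalar inequality
    have hcs : 4 * g ^ 2 * inner ℝ (x i0) lam ≤ tp * (g ^ 2 + (q i0 - δ)) := by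
      have h1 : inner ℝ (x i0) lam ≤ ‖x i0‖ * ‖lam‖ := real_inner_le_norm _ _
      -- (2 b g ... )
      have h2 : (4 * g ^ 2 * (‖x i0‖ * ‖lam‖)) ^ 2 ≤ (tp * (g ^ 2 + (q i0 - δ))) ^ 2 := by
        have h3 : (4 * g ^ 2 * (‖x i0‖ * ‖lam‖)) ^ 2 =
            4 * g ^ 2 * tp ^ 2 * (2 * ‖x i0‖ ^ 2) := by
          have : (4 * g ^ 2 * (‖x i0‖ * ‖lam‖)) ^ 2 =
            4 * g ^ 4 * (2 * ‖lam‖ ^ 2) * (2 * ‖x i0‖ ^ 2) := by ring
          rw [this, ← hb2, htp]; ring
        rw [h3]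
        have h4 : 4 * g ^ 2 * (2 * ‖x i0‖ ^ 2) ≤ (g ^ 2 + (q i0 - δ)) ^ 2 := by
          have h5 : 4 * g ^ 2 * (2 * ‖x i0‖ ^ 2) ≤ 4 * g ^ 2 * (q i0 - δ) :=
            mul_le_mul_of_nonneg_left hx0' (by positivity)
          nlinarith [sq_nonneg (g ^ 2 - (q i0 - δ))]
        nlinarith [mul_le_mul_of_nonneg_left h4 (sq_nonneg tp)]
      have h6 := abs_le_of_sq_le_sq h2 (by positivity)
      have h7 : 4 * g ^ 2 * inner ℝ (x i0) lam ≤ 4 * g ^ 2 * (‖x i0‖ * ‖lam‖) :=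
        mul_le_mul_of_nonneg_left h1 (by positivity)
      linarith [le_abs_self (4 * g ^ 2 * (‖x i0‖ * ‖lam‖))]
    have hbr : t / (g ^ 2 + q i0) - (t - δ) / (g ^ 2 + (q i0 - δ)) =
        δ * (g ^ 2 + tp) / ((g ^ 2 + q i0) * (g ^ 2 + (q i0 - δ))) := by
      have h8 : t = q i0 - tp := by rw [ht, hq1]; ring
      rw [h8]
      field_simp
      ring
    have hbr0 : 0 ≤ δ * (g ^ 2 + tp) / ((g ^ 2 + q i0) * (g ^ 2 + (q i0 - δ))) := by positivity
    have hprod := mul_le_mul_of_nonneg_right hcs hbr0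
    have e1 : 1 * (t * (q i0 + 4 * g ^ 2 * inner ℝ (x i0) lam / (g ^ 2 + q i0))) +
        (1 * ((t - δ) * q i0) +
        -inner ℝ (x i0) lam * (4 * g ^ 2 * (t - δ) / (g ^ 2 + (q i0 - δ)))) =
        (2 * t - δ) * q i0 + 4 * g ^ 2 * inner ℝ (x i0) lam *
        (t / (g ^ 2 + q i0) - (t - δ) / (g ^ 2 + (q i0 - δ))) := by ring
    rw [e1, hbr]
    have e2 : tp * (g ^ 2 + (q i0 - δ)) *
        (δ * (g ^ 2 + tp) / ((g ^ 2 + q i0) * (g ^ 2 + (q i0 - δ)))) =
        tp * δ * (g ^ 2 + tp) / (g ^ 2 + q i0) := by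
      field_simp
    rw [e2] at hprod
    linarith

end Pool.Agent.Helper58.LW
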