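import Pool.Agent.Helper58.LW.Scalar2

set_option autoImplicit false

namespace Pool.Agent.Helper58.LW

variable {ι : Type*} [Fintype ι] [DecidableEq ι]
variable {E : Type*} [NormedAddCommGroup E] [InnerProductSpace ℝ E]

lemma J_term (x lam : E) (d q b g tp t q1 : ℝ) (hb0 : 0 < b) (hb : b = √2 * ‖lam‖)
    (hgb : b ≤ g) (htp : tp = b * g) (hq1 : q1 = 1 - tp) (ht : t = 1 - 2 * tp) (ht0 : 0 < t)
    (hd : 0 ≤ d) (hq : q = 2 * ‖x‖ ^ 2 + 2 * d) (hqle : q ≤ q1) :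
    (tp - b ^ 2) * (max (q - tp) 0 * (q1 + 4 * g ^ 2 * inner ℝ x lam / (g ^ 2 + q))) ≤
      2 * t * tp * ‖x + lam‖ ^ 2 + (tp - b ^ 2) * (2 * t * (g ^ 2 + 1) / (g ^ 2 + q1)) * d := by
  have hg : 0 < g := lt_of_lt_of_le hb0 hgb
  have htp0 : 0 < tp := by rw [htp]; positivity
  have htb : 0 ≤ tp - b ^ 2 := by rw [htp]; nlinarith
  have hq10 : 0 < q1 := by linarith
  have hC : 0 ≤ (tp - b ^ 2) * (2 * t * (g ^ 2 + 1) / (g ^ 2 + q1)) * d := by positivity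
  rcases le_total q tp with h | h
  · rw [max_eq_right (by linarith), zero_mul, mul_zero]
    positivity
  · rw [max_eq_left (by linarith)]
    have h2 : √2 * √2 = (2 : ℝ) := Real.mul_self_sqrt (by norm_num)
    have hν : -2 * inner ℝ x lam ≤ b * (√2 * ‖x‖) := by
      have h1 := real_inner_le_norm (-x) lam
      rw [inner_neg_left, norm_neg] at h1
      have : b * (√2 * ‖x‖) = 2 * (‖x‖ * ‖lam‖) := by
        rw [hb]; calc √2 * ‖lam‖ * (√2 * ‖x‖) = (√2 * √2) * (‖x‖ * ‖lam‖) := by ring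
          _ = _ := by rw [h2]
      rw [this]; linarith
    have hu : (√2 * ‖x‖) ^ 2 = 2 * ‖x‖ ^ 2 := by
      calc (√2 * ‖x‖) ^ 2 = (√2 * √2) * ‖x‖ ^ 2 := by ring
        _ = _ := by rw [h2]
    have hb2 : b ^ 2 = 2 * ‖lam‖ ^ 2 := by
      rw [hb]
      calc (√2 * ‖lam‖) ^ 2 = (√2 * √2) * ‖lam‖ ^ 2 := by ring
        _ = _ := by rw [h2]
    have := J_ineq b g t tp q1 (√2 * ‖x‖) d (-2 * inner ℝ x lam) q hb0 hgb htp hq1 ht ht0 hd
      (by rw [hu]; exact hq) hqle h hν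
    have e1 : q1 - 2 * g ^ 2 * (-2 * inner ℝ x lam) / (g ^ 2 + q) =
      q1 + 4 * g ^ 2 * inner ℝ x lam / (g ^ 2 + q) := by ring
    have e2 : t * tp * ((√2 * ‖x‖) ^ 2 - 2 * (-2 * inner ℝ x lam) + b ^ 2) =
      2 * t * tp * ‖x + lam‖ ^ 2 := by
      rw [hu, hb2, norm_add_sq_real]; ring
    rw [e1, e2] at this
    exact this

/-- degenerate case `tp = b²` and `x = -lam` -/
lemma J_term0 (x lam : E) (d q g tp t q1 : ℝ) (hg0 : 0 < g) (hb : g = √2 * ‖lam‖)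
    (htp : tp = g ^ 2) (hq1 : q1 = 1 - tp) (ht : t = 1 - 2 * tp) (ht0 : 0 < t)
    (hd : 0 ≤ d) (hq : q = 2 * ‖x‖ ^ 2 + 2 * d) (hqle : q ≤ q1) (hx : ‖x + lam‖ ^ 2 = 0) :
    max (q - tp) 0 * (q1 + 4 * g ^ 2 * inner ℝ x lam / (g ^ 2 + q)) ≤
      (2 * t * (g ^ 2 + 1) / (g ^ 2 + q1)) * d := by
  have hx' : x = -lam := by
    have : ‖x + lam‖ = 0 := by
      have := pow_eq_zero_iff (n := 2) (by norm_num) |>.1 hx
      exact this
    rw [norm_eq_zero] at this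
    exact eq_neg_of_add_eq_zero_left this
  have h2 : √2 * √2 = (2 : ℝ) := Real.mul_self_sqrt (by norm_num)
  have hb2 : g ^ 2 = 2 * ‖lam‖ ^ 2 := by
    rw [hb]
    calc (√2 * ‖lam‖) ^ 2 = (√2 * √2) * ‖lam‖ ^ 2 := by ring
      _ = _ := by rw [h2]
  have hqd : q = g ^ 2 + 2 * d := by rw [hq, hx', norm_neg, hb2]
  have hin : inner ℝ x lam = -(g ^ 2 / 2) := by
    rw [hx', inner_neg_left, real_inner_self_eq_norm_sq, hb2]; ring
  have hm : max (q - tp) 0 = 2 * d := by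
    rw [hqd, htp, max_eq_left] <;> linarith
  rw [hm, hin]
  have hg2 : 0 < g ^ 2 := by positivity
  have hsum : g ^ 2 + q1 = 1 := by rw [hq1, htp]; ring
  have hP : 0 < g ^ 2 + q := by rw [hqd]; positivity
  have hP1 : g ^ 2 + q ≤ 1 := by linarith
  rw [hsum, div_one]
  have h3 : 2 * g ^ 4 ≤ 2 * g ^ 4 / (g ^ 2 + q) := by
    rw [le_div_iff₀ hP]
    nlinarith [pow_pos hg0 4]
  have h4 : q1 + 4 * g ^ 2 * -(g ^ 2 / 2) / (g ^ 2 + q) = q1 - 2 * g ^ 4 / (g ^ 2 + q) := by ring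
  rw [h4]
  have h5 : q1 - 2 * g ^ 4 / (g ^ 2 + q) ≤ t * (g ^ 2 + 1) := by
    have : q1 - 2 * g ^ 4 = t * (g ^ 2 + 1) := by rw [hq1, ht, htp]; ring
    linarith
  nlinarith

/-- the sum over the remaining weights -/
lemma J_sum (x : ι → E) (lam : E) (d p q : ι → ℝ) (b g tp t q1 δ : ℝ)
    (hb0 : 0 < b) (hb : b = √2 * ‖lam‖)
    (hgb : b ≤ g) (htp : tp = b * g) (hq1 : q1 = 1 - tp) (ht : t = 1 - 2 * tp) (ht0 : 0 < t)
    (hd : ∀ i, 0 ≤ d i) (hq : ∀ i, q i = 2 * ‖x i‖ ^ 2 + 2 * d i) (hqle : ∀ i, q i ≤ q1)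
    (hp1 : ∀ i, p i ≤ 1) (hδ : 0 ≤ δ)
    (hA : ∑ i, (1 - p i) * (‖x i + lam‖ ^ 2 + d i) = tp - b ^ 2 + δ / 2)
    (hB : δ / 2 ≤ ∑ i, (1 - p i) * d i) :
    ∑ i, (1 - p i) * (max (q i - tp) 0 * (q1 + 4 * g ^ 2 * inner ℝ (x i) lam / (g ^ 2 + q i))) ≤
      2 * t * tp + δ / 2 * (2 * t * (g ^ 2 + 1) / (g ^ 2 + q1)) := by
  have hg : 0 < g := lt_of_lt_of_le hb0 hgb
  have htp0 : 0 < tp := by rw [htp]; positivity
  have htb : 0 ≤ tp - b ^ 2 := by rw [htp]; nlinarith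
  have hq10 : 0 < q1 := by linarith
  have hP1 : 0 < g ^ 2 + q1 := by positivity
  set C2 := 2 * t * (g ^ 2 + 1) / (g ^ 2 + q1) with hC2
  have hC20 : 0 ≤ C2 := by positivity
  have hsplit : ∑ i, (1 - p i) * ‖x i + lam‖ ^ 2 + ∑ i, (1 - p i) * d i =
      tp - b ^ 2 + δ / 2 := by
    rw [← hA, ← Finset.sum_add_distrib]
    exact Finset.sum_congr rfl fun i _ => by ring
  have hWnn : ∀ i ∈ Finset.univ, 0 ≤ (1 - p i) * ‖x i + lam‖ ^ 2 := fun i _ =>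
    mul_nonneg (by linarith [hp1 i]) (by positivity)
  rcases htb.eq_or_lt with h0 | hpos
  · -- tp = b²
    have hbg : b = g := by
      have : b * (g - b) = 0 := by rw [htp] at h0; linarith
      rcases mul_eq_zero.1 this with h | h <;> linarith
    have hWsum : ∑ i, (1 - p i) * ‖x i + lam‖ ^ 2 = 0 := by
      have h1 := Finset.sum_nonneg hWnn
      linarith
    have hW0 := (Finset.sum_eq_zero_iff_of_nonneg hWnn).1 hWsum
    have hterm : ∀ i ∈ Finset.univ, (1 - p i) *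
        (max (q i - tp) 0 * (q1 + 4 * g ^ 2 * inner ℝ (x i) lam / (g ^ 2 + q i))) ≤
        C2 * ((1 - p i) * d i) := by
      intro i hi
      rcases mul_eq_zero.1 (hW0 i hi) with h | h
      · rw [h]; simp
      · have := J_term0 (x i) lam (d i) (q i) g tp t q1 hg (by rw [← hbg]; exact hb)
          (by rw [htp, hbg]; ring) hq1 ht ht0 (hd i) (hq i) (hqle i) h
        calc _ ≤ (1 - p i) * (C2 * d i) :=
              mul_le_mul_of_nonneg_left this (by linarith [hp1 i])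
          _ = _ := by ring
    refine (Finset.sum_le_sum hterm).trans ?_
    rw [← Finset.mul_sum]
    have hD : ∑ i, (1 - p i) * d i = δ / 2 := by linarith
    rw [hD]
    have : 0 ≤ 2 * t * tp := by positivity
    linarith
  · have hterm : ∀ i ∈ Finset.univ, (tp - b ^ 2) * ((1 - p i) *
        (max (q i - tp) 0 * (q1 + 4 * g ^ 2 * inner ℝ (x i) lam / (g ^ 2 + q i)))) ≤
        2 * t * tp * ((1 - p i) * ‖x i + lam‖ ^ 2) + (tp - b ^ 2) * C2 * ((1 - p i) * d i) := by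
      intro i _
      have := J_term (x i) lam (d i) (q i) b g tp t q1 hb0 hb hgb htp hq1 ht ht0 (hd i) (hq i)
        (hqle i)
      have h1 := mul_le_mul_of_nonneg_left this (show 0 ≤ 1 - p i by linarith [hp1 i])
      calc _ = (1 - p i) * ((tp - b ^ 2) * (max (q i - tp) 0 *
            (q1 + 4 * g ^ 2 * inner ℝ (x i) lam / (g ^ 2 + q i)))) := by ring
        _ ≤ _ := h1
        _ = _ := by ring
    have hs := Finset.sum_le_sum hterm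
    rw [← Finset.mul_sum, Finset.sum_add_distrib, ← Finset.mul_sum, ← Finset.mul_sum] at hs
    have hcoef : (tp - b ^ 2) * C2 ≤ 2 * t * tp := by
      rw [hC2, mul_div_assoc', div_le_iff₀ hP1]
      have h1 : (tp - b ^ 2) * (g ^ 2 + 1) ≤ tp * (g ^ 2 + q1) := by
        have : tp * (g ^ 2 + q1) - (tp - b ^ 2) * (g ^ 2 + 1) = b ^ 2 := by
          rw [hq1, htp]; ring
        nlinarith [sq_nonneg b]
      nlinarith
    set SW := ∑ i, (1 - p i) * ‖x i + lam‖ ^ 2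
    set SD := ∑ i, (1 - p i) * d i
    have h2 : 2 * t * tp * SW + (tp - b ^ 2) * C2 * SD ≤
        (tp - b ^ 2) * (2 * t * tp + δ / 2 * C2) := by
      have h3 : SW = tp - b ^ 2 + δ / 2 - SD := by linarith
      rw [h3]
      nlinarith [mul_nonneg (sub_nonneg.2 hB) (sub_nonneg.2 hcoef)]
    exact le_of_mul_le_mul_left (hs.trans h2) hpos

/-- (★) -/
lemma star_ineq (x : ι → E) (lam : E) (d p q : ι → ℝ) (b g tp t : ℝ)
    (hd : ∀ i, 0 ≤ d i) (hbal : ∀ i, 2 * d i ≤ ∑ j, d j)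
    (hq : ∀ i, q i = 2 * ‖x i‖ ^ 2 + 2 * d i)
    (hw : ∑ i, (‖x i + lam‖ ^ 2 + d i) = 1)
    (hp0 : ∀ i, 0 ≤ p i) (hp1 : ∀ i, p i ≤ 1) (hp2 : ∑ i, p i = 2)
    (hpx : ∑ i, p i • x i = 0)
    (hmax : ∀ i j, i ≠ j → q i + q j ≤ ∑ k, p k * q k) (i0 : ι) (hi0 : ∀ i, q i ≤ q i0)
    (hb0 : 0 < b) (hb : b = √2 * ‖lam‖)
    (hgb : b ≤ g) (htp : tp = b * g) (hq1 : q i0 = 1 - tp) (ht : t = 1 - 2 * tp) (ht0 : 0 < t)
    (hδt : 2 * q i0 - ∑ k, p k * q k ≤ t) :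
    ∑ i, (max (q i - tp) 0 * (q i0 + 4 * g ^ 2 * inner ℝ (x i) lam / (g ^ 2 + q i))) ≤ 2 * t := by
  have hg : 0 < g := lt_of_lt_of_le hb0 hgb
  have htp0 : 0 < tp := by rw [htp]; positivity
  have hq10 : 0 < q i0 := by linarith
  have hP1 : 0 < g ^ 2 + q i0 := by positivity
  have h2 : √2 * √2 = (2 : ℝ) := Real.mul_self_sqrt (by norm_num)
  have hb2 : b ^ 2 = 2 * ‖lam‖ ^ 2 := by
    rw [hb]
    calc (√2 * ‖lam‖) ^ 2 = (√2 * √2) * ‖lam‖ ^ 2 := by ring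
      _ = _ := by rw [h2]
  obtain ⟨hδ0, _⟩ := p_struct p q hp0 hp1 hp2 hmax i0 hi0
  obtain ⟨hB, hx0⟩ := B_ineq x d p q hd hbal hq hp0 hp1 hp2 hpx hmax i0 hi0
  have hA := A_id x lam d p q hq hw hp2 hpx
  have hT := T_ineq x lam p q b g tp t hp0 hp1 hp2 hpx hmax i0 hi0 hx0 hb0 hgb htp hb2 hq1 ht ht0
    hδt
  set δ := 2 * q i0 - ∑ k, p k * q k with hδ
  have hJ := J_sum x lam d p q b g tp t (q i0) δ hb0 hb hgb htp hq1 ht ht0 hd hq hi0 hp1 hδ0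
    (by rw [hA, hb2]; linarith) hB
  have hsum : ∑ i, (max (q i - tp) 0 * (q i0 + 4 * g ^ 2 * inner ℝ (x i) lam / (g ^ 2 + q i))) =
      ∑ i, p i * (max (q i - tp) 0 * (q i0 + 4 * g ^ 2 * inner ℝ (x i) lam / (g ^ 2 + q i))) +
      ∑ i, (1 - p i) *
        (max (q i - tp) 0 * (q i0 + 4 * g ^ 2 * inner ℝ (x i) lam / (g ^ 2 + q i))) := by
    rw [← Finset.sum_add_distrib]
    exact Finset.sum_congr rfl fun i _ => by ring
  rw [hsum]
  refine (add_le_add hT hJ).trans (le_of_eq ?_)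
  have hden : g ^ 2 + q i0 ≠ 0 := hP1.ne'
  have e : tp * (g ^ 2 + tp) + t * (g ^ 2 + 1) = q i0 * (g ^ 2 + q i0) := by
    rw [hq1, ht]; ring
  have e3 : tp * δ * (g ^ 2 + tp) / (g ^ 2 + q i0) +
      δ / 2 * (2 * t * (g ^ 2 + 1) / (g ^ 2 + q i0)) = δ * q i0 := by
    have : tp * δ * (g ^ 2 + tp) / (g ^ 2 + q i0) +
      δ / 2 * (2 * t * (g ^ 2 + 1) / (g ^ 2 + q i0)) =
      δ * (tp * (g ^ 2 + tp) + t * (g ^ 2 + 1)) / (g ^ 2 + q i0) := by ring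
    rw [this, e]
    field_simp
  have e4 : (2 * t - δ) * q i0 + tp * δ * (g ^ 2 + tp) / (g ^ 2 + q i0) +
      (2 * t * tp + δ / 2 * (2 * t * (g ^ 2 + 1) / (g ^ 2 + q i0))) =
      (2 * t - δ) * q i0 + 2 * t * tp + (tp * δ * (g ^ 2 + tp) / (g ^ 2 + q i0) +
      δ / 2 * (2 * t * (g ^ 2 + 1) / (g ^ 2 + q i0))) := by ring
  rw [e4, e3, hq1]; ring

end Pool.Agent.Helper58.LW
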